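import Pool.Agent.H40.Voter.Ctmc

open MeasureTheory ProbabilityTheory Filter Topology
open scoped ENNReal NNReal

namespace H40.Voter

/-- The measure `ε ∑ δ_{ε i}`, where the sum extends over the sites `i` with `x i = 1`. -/
noncomputable def empMeasure (ε : ℝ) (x : Config) : Measure ℝ :=
  Measure.sum fun i : {i : ℤ // x i = true} => ENNReal.ofReal ε • Measure.dirac (ε * (i : ℤ))

/-- Paths of locally finite measures on the line which are right continuous with left limits for
the vague topology (by the Riesz representation theorem this is the case if and only if all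
integrals of continuous functions with compact support are right continuous with left limits). -/
def VagueCadlag (w : ℝ≥0 → Measure ℝ) : Prop :=
  (∀ t, IsLocallyFiniteMeasure (w t)) ∧
    ∀ φ : ℝ → ℝ, Continuous φ → HasCompactSupport φ → Cadlag fun t => ∫ x, φ x ∂(w t)

/-- The Skorokhod space of paths with values in the locally finite measures on the line. -/
def MeasD : Type := {w : ℝ≥0 → Measure ℝ // VagueCadlag w}

/-- The sigma algebra generated by the coordinates. -/
instance : MeasurableSpace MeasD :=
  inferInstanceAs (MeasurableSpace {w : ℝ≥0 → Measure ℝ // VagueCadlag w})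

/-- Convergence of sequences in the Skorokhod topology of measure valued paths: there are
increasing bijective time changes tending uniformly to the identity such that the time changed
paths converge locally uniformly, the locally finite measures being endowed with the vague
topology. -/
def MTendsto (x : ℕ → MeasD) (y : MeasD) : Prop :=
  ∃ lam : ℕ → (ℝ≥0 ≃o ℝ≥0), TendstoUniformly (fun n s => lam n s) (fun s => s) atTop ∧
    ∀ φ : ℝ → ℝ, Continuous φ → HasCompactSupport φ → ∀ N : ℝ≥0,
      TendstoUniformlyOn (fun n s => ∫ z, φ z ∂((x n).1 (lam n s)))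
        (fun s => ∫ z, φ z ∂(y.1 s)) atTop (Set.Iic N)

/-- Continuity of functionals for the (metrizable) Skorokhod topology of measure valued paths. -/
def MContinuous (G : MeasD → ℝ) : Prop :=
  ∀ (x : ℕ → MeasD) (y : MeasD), MTendsto x y → Tendsto (fun n => G (x n)) atTop (𝓝 (G y))

/-- Convergence in distribution of measure valued processes, as `ε` decreases to zero. -/
def MConvInLaw {Ω : ℝ → Type*} [∀ ε, MeasurableSpace (Ω ε)] (P : ∀ ε, Measure (Ω ε))
    (M : ∀ ε, Ω ε → MeasD) {Ω' : Type*} [MeasurableSpace Ω'] (P' : Measure Ω') (N : Ω' → MeasD) :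
    Prop :=
  ∀ G : MeasD → ℝ, Measurable G → (∃ C, ∀ x, |G x| ≤ C) → MContinuous G →
    Tendsto (fun ε => ∫ ω, G (M ε ω) ∂(P ε)) (𝓝[>] 0) (𝓝 (∫ ω, G (N ω) ∂P'))

/-- The rescaled measure valued processes `μ^ε_t = ε ∑ X^ε_{t/ε²}(i) δ_{ε i}` of a family of
biased voter models, as random elements of the Skorokhod space `MeasD`. -/
structure MeasFam {a : ℤ → ℝ} (V : VoterFam a) where
  M : ∀ ε, V.Ω ε → MeasD
  meas : ∀ ε, Measurable (M ε)
  eq : ∀ ε, 0 < ε → ε < 1 → ∀ᵐ ω ∂(V.P ε), ∀ t : ℝ≥0,
    (M ε ω).1 t = empMeasure ε (V.X ε (t / (ε ^ 2).toNNReal) ω)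

/-- `N` is the measure valued process with Lebesgue density zero to the left of `Z` and one to the
right of `Z`. -/
def IsSharp {Ω : Type*} [MeasurableSpace Ω] (P : Measure Ω) (Z : Ω → SkoD) (N : Ω → MeasD) :
    Prop :=
  ∀ᵐ ω ∂P, ∀ t : ℝ≥0, (N ω).1 t = (volume : Measure ℝ).restrict (Set.Ioi ((Z ω).1 t))

end H40.Voter
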