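import Pool.Agent.H40.Voter.SkorDefs

open MeasureTheory ProbabilityTheory Filter Topology
open scoped ENNReal NNReal

namespace H40.Voter

/-- The configuration `x` with the value at the site `j` flipped. -/
def flipAt (x : Config) (j : ℤ) : Config := Function.update x j (!(x j))

/-- The rate at which the biased voter model flips the site `j` in the configuration `x`: a zero
at `j` becomes a one at rate `∑ a (j - i)` over the ones `i`, a one at `j` becomes a zero at rate
`(1 - ε) ∑ a (j - i)` over the zeros `i`. -/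
noncomputable def flipRate (a : ℤ → ℝ) (ε : ℝ) (x : Config) (j : ℤ) : ℝ :=
  (∑' i : ℤ, if x i = true ∧ x j = false then a (j - i) else 0) +
    (1 - ε) * ∑' i : ℤ, if x i = false ∧ x j = true then a (j - i) else 0

/-- The total jump rate of the configuration `x`. -/
noncomputable def totalRate (a : ℤ → ℝ) (ε : ℝ) (x : Config) : ℝ := ∑' j : ℤ, flipRate a ε x j

open Classical in
/-- The transition probabilities of the jump chain of the biased voter model. -/
noncomputable def jumpProb (a : ℤ → ℝ) (ε : ℝ) (x y : Config) : ℝ :=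
  ∑' j : ℤ, if y = flipAt x j then flipRate a ε x j / totalRate a ε x else 0

open Classical in
/-- `Z` is a Markov chain with the transition probabilities `jumpProb` started from the Heaviside
configuration, and `ξ` is a sequence of independent standard exponential variables, independent of
`Z`: this is expressed through the finite dimensional laws. -/
structure IsVoterChain {Ω : Type*} [MeasurableSpace Ω] (P : Measure Ω) (a : ℤ → ℝ) (ε : ℝ)
    (Z : ℕ → Ω → Config) (ξ : ℕ → Ω → ℝ) : Prop where
  measurable_Z : ∀ k, Measurable (Z k)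
  measurable_ξ : ∀ k, Measurable (ξ k)
  law : ∀ (n : ℕ) (y : ℕ → Config) (r : ℕ → ℝ), (∀ k, 0 ≤ r k) →
    P {ω | ∀ k ≤ n, Z k ω = y k ∧ r k < ξ k ω} =
      ENNReal.ofReal ((if y 0 = heaviside then 1 else 0) *
        (∏ k ∈ Finset.range n, jumpProb a ε (y k) (y (k + 1))) *
        ∏ k ∈ Finset.range (n + 1), Real.exp (-(r k)))

/-- The time of the `n`-th jump: the `k`-th state is held for the time `ξ k` divided by its total
rate. -/
noncomputable def jumpTime {Ω : Type*} (a : ℤ → ℝ) (ε : ℝ) (Z : ℕ → Ω → Config)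
    (ξ : ℕ → Ω → ℝ) (n : ℕ) (ω : Ω) : ℝ :=
  ∑ k ∈ Finset.range n, ξ k ω / totalRate a ε (Z k ω)

/-- `X` is the biased voter model with kernel `a` and bias `ε` started from the Heaviside
configuration: the continuous time Markov chain whose jump chain `Z` has the transition
probabilities `jumpProb` and whose holding times are exponential with parameter `totalRate`. -/
def IsVoterProcess {Ω : Type*} [MeasurableSpace Ω] (P : Measure Ω) (a : ℤ → ℝ) (ε : ℝ)
    (X : ℝ≥0 → Ω → Config) : Prop :=
  ∃ (Z : ℕ → Ω → Config) (ξ : ℕ → Ω → ℝ), IsVoterChain P a ε Z ξ ∧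
    ∀ᵐ ω ∂P, ∀ (n : ℕ) (t : ℝ≥0),
      jumpTime a ε Z ξ n ω ≤ t → t < jumpTime a ε Z ξ (n + 1) ω → X t ω = Z n ω

/-- A family of biased voter models with kernel `a`, one for every bias `0 < ε < 1`, on arbitrary
probability spaces, each started from the Heaviside configuration, together with their
diffusively rescaled interface processes `Y ε`, viewed as random elements of the Skorokhod
space. -/
structure VoterFam (a : ℤ → ℝ) where
  Ω : ℝ → Type
  mΩ : ∀ ε, MeasurableSpace (Ω ε)
  P : ∀ ε, Measure (Ω ε)
  prob : ∀ ε, IsProbabilityMeasure (P ε)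
  X : ∀ ε, ℝ≥0 → Ω ε → Config
  voter : ∀ ε, 0 < ε → ε < 1 → IsVoterProcess (P ε) a ε (X ε)
  Y : ∀ ε, Ω ε → SkoD
  meas : ∀ ε, Measurable (Y ε)
  interface : ∀ ε, 0 < ε → ε < 1 → IsScaledInterface (P ε) ε (X ε) (Y ε)

attribute [instance] VoterFam.mΩ VoterFam.prob

/-- `Z` is a Brownian motion with variance `σ ^ 2` per unit time and drift `μ`. -/
def IsDriftedBM {Ω : Type*} [MeasurableSpace Ω] (P : Measure Ω) (σ μ : ℝ) (Z : Ω → SkoD) :
    Prop :=
  ∃ B : ℝ≥0 → Ω → ℝ, IsBrownianReal B P ∧
    ∀ᵐ ω ∂P, ∀ t : ℝ≥0, (Z ω).1 t = σ * B t ω + μ * t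

end H40.Voter
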