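import Mathlib

open MeasureTheory ProbabilityTheory Filter Topology
open scoped ENNReal NNReal

namespace H40.Voter

/-- Configurations of zeros and ones on the integers. `true` stands for the value one and
`false` for the value zero. -/
abbrev Config : Type := ℤ → Bool

/-- The assumptions of the problem on the kernel `a`: nonnegative, summable, with finite second
moment, irreducible, and not nearest neighbour. -/
structure IsKernel (a : ℤ → ℝ) : Prop where
  nonneg : ∀ k, 0 ≤ a k
  summable : Summable a
  second_moment : Summable fun k : ℤ => a k * (k : ℝ) ^ 2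
  irreducible : ∀ i j : ℤ, Relation.ReflTransGen (fun u v : ℤ => 0 < a (v - u)) i j
  long_jump : ∃ k : ℤ, 2 ≤ |k| ∧ 0 < a k

/-- Cylinder functions: functions of finitely many coordinates. -/
def Cylinder (f : Config → ℝ) : Prop :=
  ∃ s : Finset ℤ, ∀ x y : Config, (∀ i ∈ s, x i = y i) → f x = f y

/-- The generator of the biased voter model with bias `ε`. -/
noncomputable def gen (a : ℤ → ℝ) (ε : ℝ) (f : Config → ℝ) (x : Config) : ℝ :=
  (∑' j : ℤ, ∑' i : ℤ,
      if x i = true ∧ x j = false then a (j - i) * (f (Function.update x j true) - f x) else 0)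
  + (1 - ε) * ∑' j : ℤ, ∑' i : ℤ,
      if x i = false ∧ x j = true then a (j - i) * (f (Function.update x j false) - f x) else 0

/-- The Heaviside configuration: one exactly at the nonnegative sites. -/
def heaviside : Config := fun i => decide (0 ≤ i)

/-- `X` is a biased voter model with kernel `a` and bias `ε`, started from the Heaviside
configuration: a process with right continuous paths with left limits which solves the
martingale problem for the generator on all cylinder functions. -/
structure IsBiasedVoter {Ω : Type*} [mΩ : MeasurableSpace Ω] (P : Measure Ω)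
    (F : Filtration ℝ≥0 mΩ) (a : ℤ → ℝ) (ε : ℝ) (X : ℝ≥0 → Ω → Config) : Prop where
  adapted : ∀ t, Measurable[F t] (X t)
  initial : ∀ᵐ ω ∂P, X 0 ω = heaviside
  right_cont : ∀ ω i t, ContinuousWithinAt (fun s => X s ω i) (Set.Ici t) t
  left_lim : ∀ ω i t, ∃ l, Tendsto (fun s => X s ω i) (𝓝[<] t) (𝓝 l)
  martingale : ∀ f : Config → ℝ, Cylinder f →
    Martingale (fun (t : ℝ≥0) ω => f (X t ω) -
      ∫ s in (0 : ℝ)..(t : ℝ), gen a ε f (X s.toNNReal ω)) F P

end H40.Voter
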