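import Pool.Agent.H40.Voter.Scale

open MeasureTheory ProbabilityTheory Filter Topology
open scoped ENNReal NNReal

namespace H40.Voter

/-- A family of biased voter models with kernel `a`, one for every bias `0 < ε < 1`, on arbitrary
probability spaces, each started from the Heaviside configuration, together with their
diffusively rescaled interface processes `Y ε`, viewed as random elements of the Skorokhod
space. -/
structure VoterFamily (a : ℤ → ℝ) where
  Ω : ℝ → Type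
  mΩ : ∀ ε, MeasurableSpace (Ω ε)
  P : ∀ ε, Measure (Ω ε)
  prob : ∀ ε, IsProbabilityMeasure (P ε)
  F : ∀ ε, Filtration ℝ≥0 (mΩ ε)
  X : ∀ ε, ℝ≥0 → Ω ε → Config
  voter : ∀ ε, 0 < ε → ε < 1 → IsBiasedVoter (P ε) (F ε) a ε (X ε)
  Y : ∀ ε, Ω ε → SkoD
  meas : ∀ ε, Measurable (Y ε)
  interface : ∀ ε, 0 < ε → ε < 1 → IsScaledInterface (P ε) ε (X ε) (Y ε)

attribute [instance] VoterFamily.mΩ VoterFamily.prob

/-- Unboundedness gives arbitrarily large arguments. -/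
theorem exists_large {f : ℕ → ℝ} (h : ¬ BddAbove (Set.range f)) (c : ℝ) (N : ℕ) :
    ∃ d, N ≤ d ∧ c < f d := by
  by_contra hcon
  push Not at hcon
  apply h
  refine ⟨max c (∑ i ∈ Finset.range N, |f i|), ?_⟩
  rintro _ ⟨d, rfl⟩
  rcases le_total N d with hd | hd
  · exact (hcon d hd).trans (le_max_left _ _)
  · rcases eq_or_lt_of_le hd with rfl | hlt
    · exact (hcon d le_rfl).trans (le_max_left _ _)
    · refine le_trans ((le_abs_self _).trans ?_) (le_max_right _ _)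
      exact Finset.single_le_sum (f := fun i => |f i|) (fun _ _ => abs_nonneg _)
        (Finset.mem_range.2 hlt)

theorem frequently_low {a : ℤ → ℝ} (hk : IsKernel a) (hc : ∑' k : ℤ, a k * (k : ℝ) = 0)
    (hub : ¬ BddAbove (Set.range fun d : ℕ => (d : ℝ) ^ 3 * tail a d)) (V : VoterFamily a)
    (K : ℕ) (T : ℝ) (hT : 0 < T) (η : ℝ) (hη : 0 < η) :
    ∃ᶠ ε in 𝓝[>] (0 : ℝ), ENNReal.ofReal (1 - η) ≤
      V.P ε {ω | ∃ t : ℝ≥0, (t : ℝ) ≤ T ∧ (V.Y ε ω).1 t ≤ -K} := by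
  set C₂ := ∑' k : ℤ, a k * (k : ℝ) ^ 2
  have hC₂ : 0 ≤ C₂ := tsum_nonneg fun k => mul_nonneg (hk.nonneg k) (sq_nonneg _)
  -- choice of the width of the window
  obtain ⟨L, hL0, hL⟩ : ∃ L : ℕ, 0 < L ∧ 2 * C₂ * T / (L : ℝ) ^ 2 ≤ η / 2 := by
    obtain ⟨L, hL⟩ := exists_nat_ge (4 * C₂ * T / η + 1)
    have h1 : 1 ≤ (L : ℝ) := le_trans (by
      have : 0 ≤ 4 * C₂ * T / η := by positivity
      linarith) hL
    refine ⟨L, by exact_mod_cast lt_of_lt_of_le one_pos h1, ?_⟩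
    rw [div_le_iff₀ (by positivity)]
    have h2 : 4 * C₂ * T / η ≤ L := by linarith
    rw [div_le_iff₀ hη] at h2
    nlinarith [mul_le_mul_of_nonneg_right h1 (by positivity : (0 : ℝ) ≤ η * L)]
  have hLr : (0 : ℝ) < L := by exact_mod_cast hL0
  rw [Filter.frequently_iff]
  intro U hU
  obtain ⟨r, hr0, hr⟩ := (mem_nhdsGT_iff_exists_Ioo_subset).1 hU
  have hr0' : (0 : ℝ) < r := hr0
  -- choice of the scale
  obtain ⟨N, hN⟩ := exists_nat_gt ((2 * L + K + 3 : ℝ) / min r 1)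
  obtain ⟨d, hdN, hd⟩ := exists_large hub
    (4 * (2 * L + K + 4 : ℝ) ^ 3 / (η * L * T)) (max N 1)
  have hd1 : 1 ≤ d := le_trans (le_max_right _ _) hdN
  have hdr : (0 : ℝ) < d := by exact_mod_cast hd1
  have hdN' : (N : ℝ) ≤ d := by exact_mod_cast le_trans (le_max_left _ _) hdN
  set ε : ℝ := (2 * L + K + 3) / d with hε
  have hε0 : 0 < ε := by positivity
  have hεlt : ε < min r 1 := by
    rw [hε, div_lt_iff₀ hdr]
    have h3 : 0 < min r 1 := lt_min hr0' one_pos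
    rw [div_lt_iff₀ h3] at hN
    nlinarith
  have hε1 : ε < 1 := lt_of_lt_of_le hεlt (min_le_right _ _)
  have hεd : ε * d = 2 * L + K + 3 := by rw [hε]; field_simp
  have hpos : 0 < (d : ℝ) ^ 3 * tail a d := lt_of_le_of_lt (by positivity) hd
  have ht : 0 < tail a d := (pos_iff_pos_of_mul_pos hpos).1 (by positivity)
  refine ⟨ε, hr ⟨hε0, lt_of_lt_of_le hεlt (min_le_left _ _)⟩, ?_⟩
  refine large_of_compl hη.le ?_
  have hs := scaled (V.voter ε hε0 hε1) hk hc hε0 hε1 (V.interface ε hε0 hε1) hT (K := K)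
    hL0 hεd.ge (by rw [hεd]; linarith) ht
  refine hs.trans (ENNReal.ofReal_le_ofReal ?_)
  have h4 : 2 * (2 * L + K + 4 : ℝ) ^ 3 / (L * T * ((d : ℝ) ^ 3 * tail a d)) ≤ η / 2 := by
    rw [div_le_iff₀ (by positivity)]
    rw [div_lt_iff₀ (by positivity)] at hd
    nlinarith
  linarith

theorem tendsto_low {a : ℤ → ℝ} (hk : IsKernel a) (hc : ∑' k : ℤ, a k * (k : ℝ) = 0)
    (hub : Tendsto (fun d : ℕ => (d : ℝ) ^ 3 * tail a d) atTop atTop) (V : VoterFamily a)
    (K : ℕ) (T : ℝ) (hT : 0 < T) :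
    Tendsto (fun ε : ℝ => V.P ε {ω | ∃ t : ℝ≥0, (t : ℝ) ≤ T ∧ (V.Y ε ω).1 t ≤ -K}) (𝓝[>] 0)
      (𝓝 1) := by
  have key : ∀ η : ℝ, 0 < η → ∀ᶠ ε in 𝓝[>] (0 : ℝ), ENNReal.ofReal (1 - η) ≤
      V.P ε {ω | ∃ t : ℝ≥0, (t : ℝ) ≤ T ∧ (V.Y ε ω).1 t ≤ -K} := by
    intro η hη
    set C₂ := ∑' k : ℤ, a k * (k : ℝ) ^ 2
    have hC₂ : 0 ≤ C₂ := tsum_nonneg fun k => mul_nonneg (hk.nonneg k) (sq_nonneg _)
    obtain ⟨L, hL0, hL⟩ : ∃ L : ℕ, 0 < L ∧ 2 * C₂ * T / (L : ℝ) ^ 2 ≤ η / 2 := by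
      obtain ⟨L, hL⟩ := exists_nat_ge (4 * C₂ * T / η + 1)
      have h1 : 1 ≤ (L : ℝ) := le_trans (by
        have : 0 ≤ 4 * C₂ * T / η := by positivity
        linarith) hL
      refine ⟨L, by exact_mod_cast lt_of_lt_of_le one_pos h1, ?_⟩
      rw [div_le_iff₀ (by positivity)]
      have h2 : 4 * C₂ * T / η ≤ L := by linarith
      rw [div_le_iff₀ hη] at h2
      nlinarith [mul_le_mul_of_nonneg_right h1 (by positivity : (0 : ℝ) ≤ η * L)]
    have hLr : (0 : ℝ) < L := by exact_mod_cast hL0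
    obtain ⟨N, hN⟩ := eventually_atTop.1 (hub.eventually
      (eventually_gt_atTop (4 * (2 * L + K + 4 : ℝ) ^ 3 / (η * L * T))))
    have hr : (0 : ℝ) < min 1 (1 / ((N : ℝ) + 1)) := lt_min one_pos (by positivity)
    filter_upwards [Ioo_mem_nhdsGT hr] with ε hε
    have hε0 : 0 < ε := hε.1
    have hε1 : ε < 1 := lt_of_lt_of_le hε.2 (min_le_left _ _)
    set d : ℕ := ⌈(2 * L + K + 3 : ℝ) / ε⌉₊ with hd
    have hd1 : (2 * L + K + 3 : ℝ) ≤ ε * d := by
      have := Nat.le_ceil ((2 * L + K + 3 : ℝ) / ε)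
      rw [div_le_iff₀ hε0] at this
      linarith
    have hd2 : ε * d ≤ 2 * L + K + 4 := by
      have h3 := Nat.ceil_lt_add_one (show (0 : ℝ) ≤ (2 * L + K + 3 : ℝ) / ε by positivity)
      have h4 : ε * ((2 * L + K + 3 : ℝ) / ε + 1) = 2 * L + K + 3 + ε := by field_simp
      have h5 : ε * (d : ℝ) ≤ ε * ((2 * L + K + 3 : ℝ) / ε + 1) :=
        mul_le_mul_of_nonneg_left h3.le hε0.le
      linarith
    have hdN : N ≤ d := by
      have h6 : (N : ℝ) + 1 ≤ 1 / ε := by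
        rw [le_div_iff₀ hε0]
        have h7 : ε ≤ 1 / ((N : ℝ) + 1) := hε.2.le.trans (min_le_right _ _)
        rw [le_div_iff₀ (by positivity)] at h7
        linarith
      have h8 : 1 / ε ≤ d := by
        rw [div_le_iff₀ hε0]
        have : (0 : ℝ) ≤ K := Nat.cast_nonneg K
        nlinarith
      exact_mod_cast (by linarith : (N : ℝ) ≤ d)
    have hdl := hN d hdN
    have hpos : 0 < (d : ℝ) ^ 3 * tail a d := lt_of_le_of_lt (by positivity) hdl
    have ht : 0 < tail a d := by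
      by_contra hneg
      have : tail a d = 0 := le_antisymm (not_lt.1 hneg) (tail_nonneg hk.nonneg _)
      rw [this, mul_zero] at hpos
      exact lt_irrefl _ hpos
    refine large_of_compl hη.le ?_
    have hs := scaled (V.voter ε hε0 hε1) hk hc hε0 hε1 (V.interface ε hε0 hε1) hT (K := K)
      hL0 hd1 hd2 ht
    refine hs.trans (ENNReal.ofReal_le_ofReal ?_)
    have h4 : 2 * (2 * L + K + 4 : ℝ) ^ 3 / (L * T * ((d : ℝ) ^ 3 * tail a d)) ≤ η / 2 := by
      rw [div_le_iff₀ (by positivity)]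
      rw [div_lt_iff₀ (by positivity)] at hdl
      nlinarith
    linarith
  refine tendsto_order.2 ⟨fun b hb => ?_, fun b hb => ?_⟩
  · obtain ⟨c, hbc, hc1⟩ := exists_between hb
    have hcr : c.toReal < 1 := by
      have := (ENNReal.toReal_lt_toReal (ne_top_of_lt hc1) ENNReal.one_ne_top).2 hc1
      simpa using this
    filter_upwards [key (1 - c.toReal) (by linarith)] with ε hε
    rw [sub_sub_cancel, ENNReal.ofReal_toReal (ne_top_of_lt hc1)] at hε
    exact lt_of_lt_of_le hbc hε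
  · exact Eventually.of_forall fun ε => lt_of_le_of_lt prob_le_one hb

end H40.Voter
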