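import Pool.Agent.H40.Voter.Tent

open MeasureTheory ProbabilityTheory Filter Topology
open scoped ENNReal NNReal

namespace H40.Voter

/-- `f` depends only on the coordinates in `s`. -/
def DependsOn' (s : Finset ℤ) (f : Config → ℝ) : Prop :=
  ∀ x y : Config, (∀ i ∈ s, x i = y i) → f x = f y

theorem DependsOn'.continuous {s : Finset ℤ} {f : Config → ℝ} (h : DependsOn' s f) :
    Continuous f := by
  classical
  let g : (s → Bool) → ℝ := fun y => f fun i => if hi : i ∈ s then y ⟨i, hi⟩ else false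
  have hfg : f = g ∘ fun x : Config => fun i : s => x i := by
    funext x
    refine h _ _ fun i hi => ?_
    simp [hi]
  rw [hfg]
  exact (continuous_of_discreteTopology (f := g)).comp
    (continuous_pi fun i => continuous_apply _)

theorem DependsOn'.mono {s t : Finset ℤ} {f : Config → ℝ} (h : DependsOn' s f) (hst : s ⊆ t) :
    DependsOn' t f := fun x y hxy => h x y fun i hi => hxy i (hst hi)

theorem DependsOn'.update {s : Finset ℤ} {f : Config → ℝ} (h : DependsOn' s f) {j : ℤ}
    (hj : j ∉ s) (x : Config) (b : Bool) : f (Function.update x j b) = f x := by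
  refine h _ _ fun i hi => ?_
  have : i ≠ j := fun e => hj (e ▸ hi)
  simp [this]

/-- Summand of the first part of the generator. -/
noncomputable def t1 (a : ℤ → ℝ) (f : Config → ℝ) (j i : ℤ) (x : Config) : ℝ :=
  if x i = true ∧ x j = false then a (j - i) * (f (Function.update x j true) - f x) else 0

/-- Summand of the second part of the generator. -/
noncomputable def t2 (a : ℤ → ℝ) (f : Config → ℝ) (j i : ℤ) (x : Config) : ℝ :=
  if x i = false ∧ x j = true then a (j - i) * (f (Function.update x j false) - f x) else 0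

theorem t1_dep {s : Finset ℤ} {f : Config → ℝ} (h : DependsOn' s f) (a : ℤ → ℝ) (j i : ℤ) :
    DependsOn' (s ∪ {i, j}) (t1 a f j i) := by
  intro x y hxy
  have hi : x i = y i := hxy i (by simp)
  have hj : x j = y j := hxy j (by simp)
  have h1 : f x = f y := h x y fun l hl => hxy l (by simp [hl])
  have h2 : f (Function.update x j true) = f (Function.update y j true) := by
    refine h _ _ fun l hl => ?_
    by_cases hlj : l = j
    · subst hlj; simp
    · simp [hlj]; exact hxy l (by simp [hl])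
  unfold t1
  rw [hi, hj, h1, h2]

theorem t2_dep {s : Finset ℤ} {f : Config → ℝ} (h : DependsOn' s f) (a : ℤ → ℝ) (j i : ℤ) :
    DependsOn' (s ∪ {i, j}) (t2 a f j i) := by
  intro x y hxy
  have hi : x i = y i := hxy i (by simp)
  have hj : x j = y j := hxy j (by simp)
  have h1 : f x = f y := h x y fun l hl => hxy l (by simp [hl])
  have h2 : f (Function.update x j false) = f (Function.update y j false) := by
    refine h _ _ fun l hl => ?_
    by_cases hlj : l = j
    · subst hlj; simp
    · simp [hlj]; exact hxy l (by simp [hl])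
  unfold t2
  rw [hi, hj, h1, h2]

theorem abs_t1_le {a : ℤ → ℝ} (ha : ∀ k, 0 ≤ a k) {f : Config → ℝ} {B : ℝ} (hB : 0 ≤ B)
    (hf : ∀ x y, |f x - f y| ≤ B) (j i : ℤ) (x : Config) : |t1 a f j i x| ≤ a (j - i) * B := by
  unfold t1
  split_ifs with h
  · rw [abs_mul, abs_of_nonneg (ha _)]
    exact mul_le_mul_of_nonneg_left (hf _ _) (ha _)
  · rw [abs_zero]; exact mul_nonneg (ha _) hB

theorem abs_t2_le {a : ℤ → ℝ} (ha : ∀ k, 0 ≤ a k) {f : Config → ℝ} {B : ℝ} (hB : 0 ≤ B)
    (hf : ∀ x y, |f x - f y| ≤ B) (j i : ℤ) (x : Config) : |t2 a f j i x| ≤ a (j - i) * B := by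
  unfold t2
  split_ifs with h
  · rw [abs_mul, abs_of_nonneg (ha _)]
    exact mul_le_mul_of_nonneg_left (hf _ _) (ha _)
  · rw [abs_zero]; exact mul_nonneg (ha _) hB

theorem summable_refl {a : ℤ → ℝ} (hs : Summable a) (j : ℤ) : Summable fun i => a (j - i) := by
  have h := (Equiv.subLeft j).summable_iff.2 hs
  simpa [Function.comp_def] using h

theorem tsum_refl (a : ℤ → ℝ) (j : ℤ) : ∑' i, a (j - i) = ∑' k, a k := by
  have h := (Equiv.subLeft j).tsum_eq a
  simpa using h

theorem gen_eq {s : Finset ℤ} {f : Config → ℝ} (h : DependsOn' s f) (a : ℤ → ℝ) (ε : ℝ)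
    (x : Config) : gen a ε f x =
      ∑ j ∈ s, ∑' i, t1 a f j i x + (1 - ε) * ∑ j ∈ s, ∑' i, t2 a f j i x := by
  unfold gen
  congr 1
  · rw [tsum_eq_sum (s := s)]
    · rfl
    · intro j hj
      have : ∀ i, (if x i = true ∧ x j = false then
          a (j - i) * (f (Function.update x j true) - f x) else 0) = 0 := by
        intro i
        rw [h.update hj, sub_self, mul_zero, ite_self]
      simp [this]
  · congr 1
    rw [tsum_eq_sum (s := s)]
    · rfl
    · intro j hj
      have : ∀ i, (if x i = false ∧ x j = true then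
          a (j - i) * (f (Function.update x j false) - f x) else 0) = 0 := by
        intro i
        rw [h.update hj, sub_self, mul_zero, ite_self]
      simp [this]

theorem summable_t1 {a : ℤ → ℝ} (ha : ∀ k, 0 ≤ a k) (hs : Summable a) {f : Config → ℝ} {B : ℝ}
    (hB : 0 ≤ B) (hf : ∀ x y, |f x - f y| ≤ B) (j : ℤ) (x : Config) :
    Summable fun i => t1 a f j i x :=
  Summable.of_norm_bounded ((summable_refl hs j).mul_right B) fun i =>
    abs_t1_le ha hB hf j i x

theorem summable_t2 {a : ℤ → ℝ} (ha : ∀ k, 0 ≤ a k) (hs : Summable a) {f : Config → ℝ} {B : ℝ}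
    (hB : 0 ≤ B) (hf : ∀ x y, |f x - f y| ≤ B) (j : ℤ) (x : Config) :
    Summable fun i => t2 a f j i x :=
  Summable.of_norm_bounded ((summable_refl hs j).mul_right B) fun i =>
    abs_t2_le ha hB hf j i x

theorem abs_tsum_t1_le {a : ℤ → ℝ} (ha : ∀ k, 0 ≤ a k) (hs : Summable a) {f : Config → ℝ} {B : ℝ}
    (hB : 0 ≤ B) (hf : ∀ x y, |f x - f y| ≤ B) (j : ℤ) (x : Config) :
    |∑' i, t1 a f j i x| ≤ (∑' k, a k) * B := by
  rw [← tsum_refl a j, ← tsum_mul_right]
  have h1 := summable_t1 ha hs hB hf j x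
  have h2 := (summable_refl hs j).mul_right B
  rw [abs_le]
  constructor
  · rw [← tsum_neg]
    exact h2.neg.tsum_le_tsum (fun i => (abs_le.1 (abs_t1_le ha hB hf j i x)).1) h1
  · exact h1.tsum_le_tsum (fun i => (abs_le.1 (abs_t1_le ha hB hf j i x)).2) h2

theorem abs_tsum_t2_le {a : ℤ → ℝ} (ha : ∀ k, 0 ≤ a k) (hs : Summable a) {f : Config → ℝ} {B : ℝ}
    (hB : 0 ≤ B) (hf : ∀ x y, |f x - f y| ≤ B) (j : ℤ) (x : Config) :
    |∑' i, t2 a f j i x| ≤ (∑' k, a k) * B := by
  rw [← tsum_refl a j, ← tsum_mul_right]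
  have h1 := summable_t2 ha hs hB hf j x
  have h2 := (summable_refl hs j).mul_right B
  rw [abs_le]
  constructor
  · rw [← tsum_neg]
    exact h2.neg.tsum_le_tsum (fun i => (abs_le.1 (abs_t2_le ha hB hf j i x)).1) h1
  · exact h1.tsum_le_tsum (fun i => (abs_le.1 (abs_t2_le ha hB hf j i x)).2) h2

theorem abs_gen_le {a : ℤ → ℝ} (ha : ∀ k, 0 ≤ a k) (hs : Summable a) {ε : ℝ} (h0 : 0 ≤ ε)
    (h1 : ε ≤ 1) {f : Config → ℝ} {s : Finset ℤ} (h : DependsOn' s f) {B : ℝ}
    (hB : 0 ≤ B) (hf : ∀ x y, |f x - f y| ≤ B) (x : Config) :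
    |gen a ε f x| ≤ 2 * ((s.card : ℝ) * ((∑' k, a k) * B)) := by
  rw [gen_eq h]
  have hA : 0 ≤ ∑' k, a k := tsum_nonneg ha
  have e1 : |∑ j ∈ s, ∑' i, t1 a f j i x| ≤ (s.card : ℝ) * ((∑' k, a k) * B) := by
    refine (Finset.abs_sum_le_sum_abs _ _).trans ?_
    rw [← nsmul_eq_mul]
    exact Finset.sum_le_card_nsmul _ _ _ fun j _ => abs_tsum_t1_le ha hs hB hf j x
  have e2 : |∑ j ∈ s, ∑' i, t2 a f j i x| ≤ (s.card : ℝ) * ((∑' k, a k) * B) := by
    refine (Finset.abs_sum_le_sum_abs _ _).trans ?_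
    rw [← nsmul_eq_mul]
    exact Finset.sum_le_card_nsmul _ _ _ fun j _ => abs_tsum_t2_le ha hs hB hf j x
  have e3 : |(1 - ε) * ∑ j ∈ s, ∑' i, t2 a f j i x| ≤ (s.card : ℝ) * ((∑' k, a k) * B) := by
    rw [abs_mul, abs_of_nonneg (by linarith : (0 : ℝ) ≤ 1 - ε)]
    refine (mul_le_of_le_one_left (abs_nonneg _) (by linarith)).trans e2
  refine (abs_add_le _ _).trans ?_
  linarith

theorem continuous_gen {a : ℤ → ℝ} (ha : ∀ k, 0 ≤ a k) (hs : Summable a) (ε : ℝ)
    {f : Config → ℝ} {s : Finset ℤ} (h : DependsOn' s f) {B : ℝ}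
    (hB : 0 ≤ B) (hf : ∀ x y, |f x - f y| ≤ B) : Continuous (gen a ε f) := by
  have e : gen a ε f = fun x => ∑ j ∈ s, ∑' i, t1 a f j i x +
      (1 - ε) * ∑ j ∈ s, ∑' i, t2 a f j i x := funext fun x => gen_eq h a ε x
  rw [e]
  refine Continuous.add (continuous_finsetSum _ fun j _ => ?_)
    (continuous_const.mul (continuous_finsetSum _ fun j _ => ?_))
  · exact continuous_tsum (fun i => (t1_dep h a j i).continuous)
      ((summable_refl hs j).mul_right B) fun i x => abs_t1_le ha hB hf j i x
  · exact continuous_tsum (fun i => (t2_dep h a j i).continuous)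
      ((summable_refl hs j).mul_right B) fun i x => abs_t2_le ha hB hf j i x

/-! ### The first moment function -/

/-- Indicator of a zero. -/
noncomputable def zr (b : Bool) : ℝ := if b = false then 1 else 0

theorem zr_nonneg (b : Bool) : 0 ≤ zr b := by unfold zr; split_ifs <;> norm_num

theorem zr_le_one (b : Bool) : zr b ≤ 1 := by unfold zr; split_ifs <;> norm_num

/-- Weighted number of zeros. -/
noncomputable def zf (s : Finset ℤ) (φ : ℤ → ℝ) (x : Config) : ℝ := ∑ j ∈ s, φ j * zr (x j)

theorem zf_dep (s : Finset ℤ) (φ : ℤ → ℝ) : DependsOn' s (zf s φ) := fun x y h =>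
  Finset.sum_congr rfl fun i hi => by rw [h i hi]

theorem zf_update {s : Finset ℤ} {φ : ℤ → ℝ} {j : ℤ} (hj : j ∈ s) (x : Config) (b : Bool) :
    zf s φ (Function.update x j b) - zf s φ x = φ j * (zr b - zr (x j)) := by
  unfold zf
  rw [← Finset.sum_sub_distrib, Finset.sum_eq_single_of_mem j hj]
  · simp; ring
  · intro i _ hij
    simp [hij]

theorem zf_abs_sub_le {s : Finset ℤ} {φ : ℤ → ℝ} (hφ : ∀ i, 0 ≤ φ i) (x y : Config) :
    |zf s φ x - zf s φ y| ≤ ∑ j ∈ s, φ j := by
  unfold zf
  rw [← Finset.sum_sub_distrib]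
  refine (Finset.abs_sum_le_sum_abs _ _).trans (Finset.sum_le_sum fun j _ => ?_)
  rw [← mul_sub, abs_mul, abs_of_nonneg (hφ j)]
  refine mul_le_of_le_one_right (hφ j) ?_
  rw [abs_le]
  have h1 := zr_nonneg (x j); have h2 := zr_le_one (x j)
  have h3 := zr_nonneg (y j); have h4 := zr_le_one (y j)
  constructor <;> linarith

theorem gen_zf_le {a : ℤ → ℝ} (hk : IsKernel a) (hc : ∑' k : ℤ, a k * (k : ℝ) = 0) {ε : ℝ}
    (h0 : 0 ≤ ε) {M : ℤ} (hM : 0 ≤ M) (x : Config) :
    gen a ε (zf (Finset.Icc 0 (2 * M)) (tent M)) x ≤ 4 * ∑' k : ℤ, a k * (k : ℝ) ^ 2 := by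
  set s := Finset.Icc 0 (2 * M)
  have hφ := tent_nonneg hM
  have hB : 0 ≤ ∑ j ∈ s, tent M j := Finset.sum_nonneg fun j _ => hφ j
  have hf := zf_abs_sub_le (s := s) hφ
  have hs := hk.summable
  rw [gen_eq (zf_dep s (tent M))]
  -- bound of the inner sums
  have key : ∀ j ∈ s, ∑' i, t1 a (zf s (tent M)) j i x + (1 - ε) * ∑' i, t2 a (zf s (tent M)) j i x
      ≤ ∑' k, a k * (tent M j * (zr (x (j - k)) - zr (x j))) := by
    intro j hj
    have hsum1 := summable_t1 hk.nonneg hs hB hf j x
    have hsum2 := summable_t2 hk.nonneg hs hB hf j x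
    have hsum3 : Summable fun i => a (j - i) * (tent M j * (zr (x i) - zr (x j))) := by
      refine Summable.of_norm_bounded ((summable_refl hs j).mul_right (tent M j)) fun i => ?_
      rw [Real.norm_eq_abs, abs_mul, abs_of_nonneg (hk.nonneg _), abs_mul, abs_of_nonneg (hφ j)]
      refine mul_le_mul_of_nonneg_left ?_ (hk.nonneg _)
      refine mul_le_of_le_one_right (hφ j) ?_
      rw [abs_le]
      have h1 := zr_nonneg (x j); have h2 := zr_le_one (x j)
      have h3 := zr_nonneg (x i); have h4 := zr_le_one (x i)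
      constructor <;> linarith
    have e : ∑' k, a k * (tent M j * (zr (x (j - k)) - zr (x j))) =
        ∑' i, a (j - i) * (tent M j * (zr (x i) - zr (x j))) := by
      have h := (Equiv.subLeft j).tsum_eq fun k => a k * (tent M j * (zr (x (j - k)) - zr (x j)))
      simp only [Equiv.subLeft_apply, sub_sub_cancel] at h
      exact h.symm
    rw [e, ← tsum_mul_left, ← hsum1.tsum_add (hsum2.mul_left _)]
    refine (hsum1.add (hsum2.mul_left _)).tsum_le_tsum (fun i => ?_) hsum3
    unfold t1 t2
    rw [zf_update hj, zf_update hj]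
    have ha := hk.nonneg (j - i)
    have hp := mul_nonneg ha (hφ j)
    rcases hi : x i with _ | _ <;> rcases hj' : x j with _ | _ <;> simp [zr] <;> nlinarith
  calc ∑ j ∈ s, ∑' i, t1 a (zf s (tent M)) j i x +
        (1 - ε) * ∑ j ∈ s, ∑' i, t2 a (zf s (tent M)) j i x
      = ∑ j ∈ s, (∑' i, t1 a (zf s (tent M)) j i x +
          (1 - ε) * ∑' i, t2 a (zf s (tent M)) j i x) := by
        rw [Finset.mul_sum, ← Finset.sum_add_distrib]
    _ ≤ ∑ j ∈ s, ∑' k, a k * (tent M j * (zr (x (j - k)) - zr (x j))) := Finset.sum_le_sum key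
    _ = ∑' k, a k * ∑ j ∈ s, (tent M j * (zr (x (j - k)) - zr (x j))) := by
        rw [← Summable.tsum_finsetSum]
        · exact tsum_congr fun k => by rw [Finset.mul_sum]
        · intro j _
          refine Summable.of_norm_bounded (hs.mul_right (tent M j)) fun k => ?_
          rw [Real.norm_eq_abs, abs_mul, abs_of_nonneg (hk.nonneg _), abs_mul,
            abs_of_nonneg (hφ j)]
          refine mul_le_mul_of_nonneg_left ?_ (hk.nonneg _)
          refine mul_le_of_le_one_right (hφ j) ?_
          rw [abs_le]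
          have h1 := zr_nonneg (x j); have h2 := zr_le_one (x j)
          have h3 := zr_nonneg (x (j - k)); have h4 := zr_le_one (x (j - k))
          constructor <;> linarith
    _ ≤ ∑' k, (a k * (k : ℝ) * (∑' i, slope M i * zr (x i)) + 4 * (a k * (k : ℝ) ^ 2)) := by
        refine Summable.tsum_le_tsum (fun k => ?_) ?_ ?_
        · have h := tent_bound hM (fun i => zr (x i)) (fun i => zr_nonneg _)
            (fun i => zr_le_one _) k
          have := mul_le_mul_of_nonneg_left h (hk.nonneg k)
          refine this.trans (le_of_eq ?_)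
          ring
        · refine Summable.of_norm_bounded (hs.mul_right (∑ j ∈ s, tent M j)) fun k => ?_
          rw [Real.norm_eq_abs, abs_mul, abs_of_nonneg (hk.nonneg _)]
          refine mul_le_mul_of_nonneg_left ?_ (hk.nonneg _)
          refine (Finset.abs_sum_le_sum_abs _ _).trans (Finset.sum_le_sum fun j _ => ?_)
          rw [abs_mul, abs_of_nonneg (hφ j)]
          refine mul_le_of_le_one_right (hφ j) ?_
          rw [abs_le]
          have h1 := zr_nonneg (x j); have h2 := zr_le_one (x j)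
          have h3 := zr_nonneg (x (j - k)); have h4 := zr_le_one (x (j - k))
          constructor <;> linarith
        · refine Summable.add (Summable.mul_right _ ?_) (hk.second_moment.mul_left 4)
          refine Summable.of_norm_bounded hk.second_moment fun k => ?_
          rw [Real.norm_eq_abs, abs_mul, abs_of_nonneg (hk.nonneg _)]
          refine mul_le_mul_of_nonneg_left ?_ (hk.nonneg _)
          have : (|k| : ℤ) ≤ k ^ 2 := by
            rcases eq_or_ne k 0 with rfl | hk0
            · simp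
            · have h1 : 1 ≤ |k| := Int.one_le_abs hk0
              nlinarith [sq_abs k]
          exact_mod_cast this
    _ = 4 * ∑' k : ℤ, a k * (k : ℝ) ^ 2 := by
        rw [Summable.tsum_add, tsum_mul_right, hc, zero_mul, zero_add, tsum_mul_left]
        · refine Summable.mul_right _ ?_
          refine Summable.of_norm_bounded hk.second_moment fun k => ?_
          rw [Real.norm_eq_abs, abs_mul, abs_of_nonneg (hk.nonneg _)]
          refine mul_le_mul_of_nonneg_left ?_ (hk.nonneg _)
          have : (|k| : ℤ) ≤ k ^ 2 := by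
            rcases eq_or_ne k 0 with rfl | hk0
            · simp
            · have h1 : 1 ≤ |k| := Int.one_le_abs hk0
              nlinarith [sq_abs k]
          exact_mod_cast this
        · exact hk.second_moment.mul_left 4

end H40.Voter
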