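import Pool.Agent.H40.Voter.Proc

open MeasureTheory ProbabilityTheory Filter Topology
open scoped ENNReal NNReal

namespace H40.Voter

open Classical in
/-- Indicator that there is no one in `J`. -/
noncomputable def empt (J : Finset ℤ) (x : Config) : ℝ :=
  if ∀ j ∈ J, x j = false then 1 else 0

/-- Total rate at which the sites of `J` are reached by ones. -/
noncomputable def rate (a : ℤ → ℝ) (J : Finset ℤ) (x : Config) : ℝ :=
  ∑ j ∈ J, ∑' i, if x i = true then a (j - i) else 0

theorem empt_dep (J : Finset ℤ) : DependsOn' J (empt J) := by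
  intro x y h
  unfold empt
  have : (∀ j ∈ J, x j = false) ↔ (∀ j ∈ J, y j = false) :=
    forall₂_congr fun j hj => by rw [h j hj]
  simp only [this]

theorem empt_nonneg (J : Finset ℤ) (x : Config) : 0 ≤ empt J x := by
  unfold empt; split_ifs <;> norm_num

theorem empt_le_one (J : Finset ℤ) (x : Config) : empt J x ≤ 1 := by
  unfold empt; split_ifs <;> norm_num

theorem empt_sub (J : Finset ℤ) (x y : Config) : |empt J x - empt J y| ≤ 1 := by
  have h1 := empt_nonneg J x; have h2 := empt_le_one J x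
  have h3 := empt_nonneg J y; have h4 := empt_le_one J y
  rw [abs_le]; constructor <;> linarith

theorem empt_eq_one {J : Finset ℤ} {x : Config} : empt J x = 1 ↔ ∀ j ∈ J, x j = false := by
  unfold empt
  split_ifs with h
  · simp only [true_iff]; exact h
  · constructor
    · intro h0; norm_num at h0
    · intro h0; exact absurd h0 h

theorem empt_eq_zero_of_ne {J : Finset ℤ} {x : Config} (h : empt J x ≠ 1) : empt J x = 0 := by
  unfold empt at *
  split_ifs at * with h1
  · exact absurd rfl h
  · rfl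

variable {a : ℤ → ℝ}

theorem rate_inner_summable (ha : ∀ k, 0 ≤ a k) (hs : Summable a) (j : ℤ) (x : Config) :
    Summable fun i => if x i = true then a (j - i) else 0 := by
  refine Summable.of_nonneg_of_le (fun i => ?_) (fun i => ?_) (summable_refl hs j)
  · split_ifs
    · exact ha _
    · exact le_rfl
  · split_ifs
    · exact le_rfl
    · exact ha _

theorem rate_nonneg (ha : ∀ k, 0 ≤ a k) (J : Finset ℤ) (x : Config) : 0 ≤ rate a J x := by
  refine Finset.sum_nonneg fun j _ => tsum_nonneg fun i => ?_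
  split_ifs
  · exact ha _
  · exact le_rfl

theorem rate_le (ha : ∀ k, 0 ≤ a k) (hs : Summable a) (J : Finset ℤ) (x : Config) :
    rate a J x ≤ (J.card : ℝ) * ∑' k, a k := by
  unfold rate
  rw [← nsmul_eq_mul]
  refine Finset.sum_le_card_nsmul _ _ _ fun j _ => ?_
  rw [← tsum_refl a j]
  refine (rate_inner_summable ha hs j x).tsum_le_tsum (fun i => ?_) (summable_refl hs j)
  split_ifs
  · exact le_rfl
  · exact ha _

theorem continuous_rate (ha : ∀ k, 0 ≤ a k) (hs : Summable a) (J : Finset ℤ) :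
    Continuous (rate a J) := by
  refine continuous_finsetSum _ fun j _ => ?_
  refine continuous_tsum (fun i => ?_) (summable_refl hs j) fun i x => ?_
  · have : DependsOn' {i} fun x : Config => if x i = true then a (j - i) else 0 := by
      intro x y h
      have := h i (by simp)
      simp only [this]
    exact this.continuous
  · rw [Real.norm_eq_abs]
    split_ifs
    · rw [abs_of_nonneg (ha _)]
    · rw [abs_zero]; exact ha _

theorem gen_empt {J : Finset ℤ} {x : Config} (h : empt J x = 1) (ε : ℝ) :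
    gen a ε (empt J) x = - rate a J x := by
  rw [gen_eq (empt_dep J)]
  have hx := empt_eq_one.1 h
  have e2 : ∑ j ∈ J, ∑' i, t2 a (empt J) j i x = 0 := by
    refine Finset.sum_eq_zero fun j hj => ?_
    have : ∀ i, t2 a (empt J) j i x = 0 := fun i => by
      unfold t2
      rw [if_neg]
      rintro ⟨_, h2⟩
      rw [hx j hj] at h2
      cases h2
    simp [this]
  rw [e2, mul_zero, add_zero, rate, ← Finset.sum_neg_distrib]
  refine Finset.sum_congr rfl fun j hj => ?_
  rw [← tsum_neg]
  refine tsum_congr fun i => ?_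
  unfold t1
  have hu : empt J (Function.update x j true) = 0 := by
    refine empt_eq_zero_of_ne fun h1 => ?_
    have := empt_eq_one.1 h1 j hj
    simp at this
  rw [hu, h]
  by_cases hi : x i = true
  · rw [if_pos ⟨hi, hx j hj⟩, if_pos hi]; ring
  · rw [if_neg (fun h => hi h.1), if_neg hi]; ring

theorem gen_empt_le (ha : ∀ k, 0 ≤ a k) (hs : Summable a) {ε : ℝ} (h0 : 0 ≤ ε) (h1 : ε ≤ 1)
    (J : Finset ℤ) (x : Config) :
    gen a ε (empt J) x ≤ - rate a J x +
      3 * ((J.card : ℝ) * ∑' k, a k) * (1 - empt J x) := by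
  have hg := abs_gen_le ha hs h0 h1 (empt_dep J) zero_le_one (empt_sub J) x
  rw [mul_one] at hg
  by_cases h : empt J x = 1
  · rw [gen_empt h, h]; linarith
  · rw [empt_eq_zero_of_ne h]
    have h2 := rate_le ha hs J x
    have h3 := (abs_le.1 hg).2
    linarith

variable {Ω : Type*} [mΩ : MeasurableSpace Ω] {P : Measure Ω} [IsProbabilityMeasure P]
  {F : Filtration ℝ≥0 mΩ} {ε : ℝ} {X : ℝ≥0 → Ω → Config}

theorem IsBiasedVoter.integrable_comp (h : IsBiasedVoter P F a ε X) {g : Config → ℝ}
    (hg : Measurable g) {C : ℝ} (hC : ∀ x, |g x| ≤ C) (t : ℝ≥0) :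
    Integrable (fun ω => g (X t ω)) P :=
  Integrable.of_bound (hg.comp (h.meas t)).aestronglyMeasurable C
    (Eventually.of_forall fun _ => hC _)

theorem IsBiasedVoter.ii (h : IsBiasedVoter P F a ε X) {g : Config → ℝ}
    (hg : Measurable g) {C : ℝ} (hC : ∀ x, |g x| ≤ C) (E : Set Ω) (u v : ℝ) :
    IntervalIntegrable (fun s : ℝ => ∫ ω in E, g (X s.toNNReal ω) ∂P) volume u v := by
  rw [intervalIntegrable_iff]
  have hC0 : 0 ≤ C := le_trans (abs_nonneg _) (hC fun _ => false)
  refine Measure.integrableOn_of_bounded (M := C) ?_ ?_ ?_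
  · rw [Real.volume_uIoc]; exact ENNReal.ofReal_ne_top
  · have h1 : Measurable fun p : ℝ × Ω => g (X p.1.toNNReal p.2) := hg.comp h.meas_uncurry
    exact (h1.stronglyMeasurable.integral_prod_right' (ν := P.restrict E)).aestronglyMeasurable
  · refine Eventually.of_forall fun s => ?_
    refine (norm_integral_le_of_norm_le_const (Eventually.of_forall fun ω => hC _)).trans ?_
    rw [measureReal_restrict_apply_univ]
    exact mul_le_of_le_one_right hC0 measureReal_le_one

/-- Grid times. -/
noncomputable def gt (T : ℝ≥0) (n k : ℕ) : ℝ≥0 := k * (T / n)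

/-- No ones in `J` at the first `k` grid times. -/
def gE (X : ℝ≥0 → Ω → Config) (J : Finset ℤ) (T : ℝ≥0) (n k : ℕ) : Set Ω :=
  {ω | ∀ l ≤ k, empt J (X (gt T n l) ω) = 1}

theorem gt_mono (T : ℝ≥0) (n : ℕ) {k l : ℕ} (h : k ≤ l) : gt T n k ≤ gt T n l := by
  unfold gt
  gcongr

omit [IsProbabilityMeasure P] in
theorem gE_meas (h : IsBiasedVoter P F a ε X) (J : Finset ℤ) (T : ℝ≥0) (n k : ℕ) :
    MeasurableSet[F (gt T n k)] (gE X J T n k) := by
  have : gE X J T n k = ⋂ l ∈ Finset.range (k + 1), {ω | empt J (X (gt T n l) ω) = 1} := by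
    ext ω; simp [gE]
  rw [this]
  refine Finset.measurableSet_biInter _ fun l hl => ?_
  have h1 : Measurable[F (gt T n l)] fun ω => empt J (X (gt T n l) ω) :=
    (empt_dep J).continuous.measurable.comp (h.adapted _)
  have h2 : MeasurableSet[F (gt T n l)] {ω | empt J (X (gt T n l) ω) = 1} :=
    h1 (measurableSet_singleton 1)
  exact F.mono (gt_mono T n (by simpa [Nat.lt_succ_iff] using hl)) _ h2

omit mΩ in
theorem gE_anti (X : ℝ≥0 → Ω → Config) (J : Finset ℤ) (T : ℝ≥0) (n : ℕ) {k l : ℕ} (h : k ≤ l) :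
    gE X J T n l ⊆ gE X J T n k := fun _ hω m hm => hω m (hm.trans h)

theorem step (h : IsBiasedVoter P F a ε X) (ha : ∀ k, 0 ≤ a k) (hs : Summable a)
    (h0 : 0 ≤ ε) (h1 : ε ≤ 1) (J : Finset ℤ) (T : ℝ≥0) (n k m : ℕ) (hkm : k ≤ m) :
    P.real (gE X J T n (k + 1)) - P.real (gE X J T n k) ≤
      -(∫ u in (gt T n k : ℝ)..gt T n (k + 1),
        ∫ ω in gE X J T n m, rate a J (X u.toNNReal ω) ∂P) +
      6 * ((J.card : ℝ) * ∑' k, a k) ^ 2 * ((T : ℝ) / n) ^ 2 := by
  set C := (J.card : ℝ) * ∑' k, a k with hC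
  have hC0 : 0 ≤ C := mul_nonneg (Nat.cast_nonneg _) (tsum_nonneg ha)
  have hE := gE_meas h J T n k
  have hE' : MeasurableSet (gE X J T n k) := F.le _ _ hE
  have hEm' : MeasurableSet (gE X J T n m) := F.le _ _ (gE_meas h J T n m)
  have hle := gt_mono T n (Nat.le_succ k)
  have hgm : Measurable (gen a ε (empt J)) :=
    (continuous_gen ha hs ε (empt_dep J) zero_le_one (empt_sub J)).measurable
  have hgb : ∀ x, |gen a ε (empt J) x| ≤ 2 * C := fun x => by
    have := abs_gen_le ha hs h0 h1 (empt_dep J) zero_le_one (empt_sub J) x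
    rwa [mul_one] at this
  have hrm : Measurable (rate a J) := (continuous_rate ha hs J).measurable
  have hrb : ∀ x, |rate a J x| ≤ C := fun x => by
    rw [abs_of_nonneg (rate_nonneg ha J x)]; exact rate_le ha hs J x
  have hem : Measurable (empt J) := (empt_dep J).continuous.measurable
  have heb : ∀ x, |empt J x| ≤ 1 := fun x => by
    rw [abs_of_nonneg (empt_nonneg J x)]; exact empt_le_one J x
  have e1 : P.real (gE X J T n (k + 1)) =
      ∫ ω in gE X J T n k, empt J (X (gt T n (k + 1)) ω) ∂P := by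
    have hA : MeasurableSet {ω | empt J (X (gt T n (k + 1)) ω) = 1} :=
      (hem.comp (h.meas _)) (measurableSet_singleton 1)
    have hset : gE X J T n (k + 1) = {ω | empt J (X (gt T n (k + 1)) ω) = 1} ∩ gE X J T n k := by
      ext ω
      constructor
      · intro hω
        exact ⟨hω _ le_rfl, fun l hl => hω l (hl.trans (Nat.le_succ k))⟩
      · rintro ⟨h2, h3⟩ l hl
        rcases Nat.le_succ_iff.1 hl with h4 | h4
        · exact h3 l h4
        · rw [h4]; exact h2
    have hfun : (fun ω => empt J (X (gt T n (k + 1)) ω)) =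
        Set.indicator {ω | empt J (X (gt T n (k + 1)) ω) = 1} 1 := by
      funext ω
      by_cases hω : empt J (X (gt T n (k + 1)) ω) = 1
      · rw [Set.indicator_of_mem (by exact hω)]; simpa using hω
      · rw [Set.indicator_of_notMem (by exact hω)]; exact empt_eq_zero_of_ne hω
    rw [hfun, integral_indicator_one hA, hset]
    rw [measureReal_restrict_apply hA]
  have e2 : P.real (gE X J T n k) = ∫ ω in gE X J T n k, empt J (X (gt T n k) ω) ∂P := by
    rw [setIntegral_congr_fun (g := fun _ => (1 : ℝ)) hE' fun ω hω => hω k le_rfl]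
    simp
  rw [e1, e2, h.dynkin ha hs h0 h1 (empt_dep J) zero_le_one (empt_sub J) hle hE]
  have hd : (gt T n (k + 1) : ℝ) - gt T n k = T / n := by
    unfold gt; push_cast; ring
  have hpt : ∀ u ∈ Set.Icc (gt T n k : ℝ) (gt T n (k + 1)),
      ∫ ω in gE X J T n k, gen a ε (empt J) (X u.toNNReal ω) ∂P ≤
      -(∫ ω in gE X J T n m, rate a J (X u.toNNReal ω) ∂P) + 6 * C ^ 2 * ((T : ℝ) / n) := by
    intro u hu
    have hu0 : 0 ≤ u := le_trans (NNReal.coe_nonneg _) hu.1
    have hlu : gt T n k ≤ u.toNNReal := by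
      rw [← NNReal.coe_le_coe, Real.coe_toNNReal _ hu0]; exact hu.1
    have i1 : Integrable (fun ω => gen a ε (empt J) (X u.toNNReal ω)) P :=
      h.integrable_comp hgm hgb _
    have i2 : Integrable (fun ω => rate a J (X u.toNNReal ω)) P := h.integrable_comp hrm hrb _
    have i3 : Integrable (fun ω => empt J (X u.toNNReal ω)) P := h.integrable_comp hem heb _
    have i2n : Integrable (fun ω => - rate a J (X u.toNNReal ω)) P := i2.neg
    have i4 : Integrable (fun ω => 3 * C * (1 - empt J (X u.toNNReal ω))) P :=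
      ((integrable_const (1 : ℝ)).sub i3).const_mul (3 * C)
    have b1 : ∫ ω in gE X J T n k, gen a ε (empt J) (X u.toNNReal ω) ∂P ≤
        -(∫ ω in gE X J T n k, rate a J (X u.toNNReal ω) ∂P) +
        3 * C * (P.real (gE X J T n k) - ∫ ω in gE X J T n k, empt J (X u.toNNReal ω) ∂P) := by
      have : ∫ ω in gE X J T n k, gen a ε (empt J) (X u.toNNReal ω) ∂P ≤
          ∫ ω in gE X J T n k, (- rate a J (X u.toNNReal ω) +
            3 * C * (1 - empt J (X u.toNNReal ω))) ∂P := by
        refine integral_mono i1.integrableOn (i2n.add i4).integrableOn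
          fun ω => gen_empt_le ha hs h0 h1 J _
      refine this.trans (le_of_eq ?_)
      rw [integral_add i2n.integrableOn i4.integrableOn,
        integral_neg, integral_const_mul,
        integral_sub (integrable_const (1 : ℝ)) i3.integrableOn]
      simp
    have b2 : P.real (gE X J T n k) - ∫ ω in gE X J T n k, empt J (X u.toNNReal ω) ∂P ≤
        2 * C * ((T : ℝ) / n) := by
      have hdy := h.dynkin ha hs h0 h1 (empt_dep J) zero_le_one (empt_sub J) hlu hE
      rw [e2]
      have : |∫ r in (gt T n k : ℝ)..u.toNNReal,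
          ∫ ω in gE X J T n k, gen a ε (empt J) (X r.toNNReal ω) ∂P| ≤
          2 * C * |(u.toNNReal : ℝ) - gt T n k| := by
        rw [← Real.norm_eq_abs]
        refine intervalIntegral.norm_integral_le_of_norm_le_const fun r _ => ?_
        refine (norm_integral_le_of_norm_le_const (Eventually.of_forall fun ω => hgb _)).trans ?_
        rw [measureReal_restrict_apply_univ]
        exact mul_le_of_le_one_right (by positivity) measureReal_le_one
      rw [Real.coe_toNNReal _ hu0] at this
      rw [Real.coe_toNNReal _ hu0] at hdy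
      have h5 : |u - gt T n k| ≤ (T : ℝ) / n := by
        rw [abs_of_nonneg (by linarith [hu.1]), ← hd]; linarith [hu.2]
      have h6 := (abs_le.1 this).1
      have h7 : 2 * C * |u - gt T n k| ≤ 2 * C * ((T : ℝ) / n) :=
        mul_le_mul_of_nonneg_left h5 (by positivity)
      linarith
    have b3 : ∫ ω in gE X J T n m, rate a J (X u.toNNReal ω) ∂P ≤
        ∫ ω in gE X J T n k, rate a J (X u.toNNReal ω) ∂P :=
      setIntegral_mono_set i2.integrableOn
        (Eventually.of_forall fun ω => rate_nonneg ha J _) (gE_anti X J T n hkm).eventuallyLE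
    have b4 : 3 * C * (P.real (gE X J T n k) - ∫ ω in gE X J T n k, empt J (X u.toNNReal ω) ∂P) ≤
        3 * C * (2 * C * ((T : ℝ) / n)) := mul_le_mul_of_nonneg_left b2 (by positivity)
    nlinarith
  have hmono := intervalIntegral.integral_mono_on (μ := volume)
    (show (gt T n k : ℝ) ≤ gt T n (k + 1) by exact_mod_cast hle)
    (h.ii hgm hgb (gE X J T n k) _ _)
    (((h.ii hrm hrb (gE X J T n m) _ _).neg).add (intervalIntegrable_const
      (c := 6 * C ^ 2 * ((T : ℝ) / n)))) hpt
  refine hmono.trans (le_of_eq ?_)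
  have e5 : ∫ u in (gt T n k : ℝ)..gt T n (k + 1),
      ((-fun s : ℝ => ∫ ω in gE X J T n m, rate a J (X s.toNNReal ω) ∂P) u +
        6 * C ^ 2 * ((T : ℝ) / n)) =
      -(∫ u in (gt T n k : ℝ)..gt T n (k + 1),
        ∫ ω in gE X J T n m, rate a J (X u.toNNReal ω) ∂P) +
      6 * C ^ 2 * ((T : ℝ) / n) ^ 2 := by
    rw [intervalIntegral.integral_add ((h.ii hrm hrb (gE X J T n m) _ _).neg)
      intervalIntegrable_const]
    simp only [Pi.neg_apply, intervalIntegral.integral_neg, intervalIntegral.integral_const]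
    rw [hd, smul_eq_mul]
    ring
  exact e5

theorem grid_bound (h : IsBiasedVoter P F a ε X) (ha : ∀ k, 0 ≤ a k) (hs : Summable a)
    (h0 : 0 ≤ ε) (h1 : ε ≤ 1) (J : Finset ℤ) (T : ℝ≥0) (n : ℕ) (hn : 0 < n) :
    ∫ u in (0 : ℝ)..T, ∫ ω in gE X J T n n, rate a J (X u.toNNReal ω) ∂P ≤
      1 + 6 * ((J.card : ℝ) * ∑' k, a k) ^ 2 * (T : ℝ) ^ 2 / n := by
  set C := (J.card : ℝ) * ∑' k, a k with hC
  have hrm : Measurable (rate a J) := (continuous_rate ha hs J).measurable
  have hrb : ∀ x, |rate a J x| ≤ C := fun x => by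
    rw [abs_of_nonneg (rate_nonneg ha J x)]; exact rate_le ha hs J x
  have hsum : ∀ k ≤ n, P.real (gE X J T n k) - P.real (gE X J T n 0) ≤
      -(∫ u in (0 : ℝ)..gt T n k, ∫ ω in gE X J T n n, rate a J (X u.toNNReal ω) ∂P) +
      k * (6 * C ^ 2 * ((T : ℝ) / n) ^ 2) := by
    intro k
    induction k with
    | zero => intro _; simp [gt]
    | succ k ih =>
      intro hk
      have h2 := ih (by omega)
      have h3 := step h ha hs h0 h1 J T n k n (by omega)
      rw [← hC] at h3
      have h4 := intervalIntegral.integral_add_adjacent_intervals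
        (h.ii hrm hrb (gE X J T n n) 0 (gt T n k)) (h.ii hrm hrb (gE X J T n n) _ (gt T n (k + 1)))
      push_cast
      linarith
  have h2 := hsum n le_rfl
  have hT : gt T n n = T := by
    unfold gt; rw [mul_div_cancel₀]; exact_mod_cast hn.ne'
  rw [hT] at h2
  have h3 : (n : ℝ) * (6 * C ^ 2 * ((T : ℝ) / n) ^ 2) = 6 * C ^ 2 * (T : ℝ) ^ 2 / n := by
    have : (n : ℝ) ≠ 0 := by exact_mod_cast hn.ne'
    field_simp
  rw [h3] at h2
  have h4 : P.real (gE X J T n 0) ≤ 1 := measureReal_le_one
  have h5 : 0 ≤ P.real (gE X J T n n) := measureReal_nonneg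
  linarith

/-- The event that no one appears in `J` up to time `T` is contained in a measurable event on
which the integrated rate has expectation at most one. -/
theorem hit_bound (h : IsBiasedVoter P F a ε X) (ha : ∀ k, 0 ≤ a k) (hs : Summable a)
    (h0 : 0 ≤ ε) (h1 : ε ≤ 1) (J : Finset ℤ) (T : ℝ≥0) :
    ∃ H : Set Ω, MeasurableSet H ∧ {ω | ∀ t ≤ T, ∀ j ∈ J, X t ω j = false} ⊆ H ∧
      ∫ u in (0 : ℝ)..T, ∫ ω in H, rate a J (X u.toNNReal ω) ∂P ≤ 1 := by
  refine ⟨⋂ n : ℕ, gE X J T (n + 1) (n + 1), ?_, ?_, ?_⟩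
  · exact MeasurableSet.iInter fun n => F.le _ _ (gE_meas h J T (n + 1) (n + 1))
  · intro ω hω
    refine Set.mem_iInter.2 fun n l hl => empt_eq_one.2 (hω _ ?_)
    have h2 := gt_mono T (n + 1) hl
    have hT : gt T (n + 1) (n + 1) = T := by
      unfold gt; rw [mul_div_cancel₀]; exact_mod_cast (Nat.succ_ne_zero n)
    rwa [hT] at h2
  · set C := (J.card : ℝ) * ∑' k, a k with hC
    have hrm : Measurable (rate a J) := (continuous_rate ha hs J).measurable
    have hrb : ∀ x, |rate a J x| ≤ C := fun x => by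
      rw [abs_of_nonneg (rate_nonneg ha J x)]; exact rate_le ha hs J x
    have hb : ∀ n : ℕ, ∫ u in (0 : ℝ)..T, ∫ ω in ⋂ n : ℕ, gE X J T (n + 1) (n + 1),
        rate a J (X u.toNNReal ω) ∂P ≤ 1 + 6 * C ^ 2 * (T : ℝ) ^ 2 / ((n : ℝ) + 1) := by
      intro n
      have h2 := grid_bound h ha hs h0 h1 J T (n + 1) (Nat.succ_pos n)
      rw [← hC] at h2
      push_cast at h2
      refine le_trans ?_ h2
      refine intervalIntegral.integral_mono_on T.coe_nonneg (h.ii hrm hrb _ _ _)
        (h.ii hrm hrb _ _ _) fun u _ => ?_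
      exact setIntegral_mono_set (h.integrable_comp hrm hrb _).integrableOn
        (Eventually.of_forall fun ω => rate_nonneg ha J _)
        (Set.iInter_subset (fun n : ℕ => gE X J T (n + 1) (n + 1)) n).eventuallyLE
    have hlim : Tendsto (fun n : ℕ => 1 + 6 * C ^ 2 * (T : ℝ) ^ 2 / ((n : ℝ) + 1)) atTop
        (𝓝 (1 + 0)) := by
      refine tendsto_const_nhds.add ?_
      have := (tendsto_one_div_add_atTop_nhds_zero_nat (𝕜 := ℝ)).const_mul
        (6 * C ^ 2 * (T : ℝ) ^ 2)
      rw [mul_zero] at this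
      refine this.congr fun n => ?_
      ring
    rw [add_zero] at hlim
    exact ge_of_tendsto' hlim hb

end H40.Voter
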