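import Pool.Agent.H40.Voter.Final

/-!
# Biased voter models: failure of path convergence of the interface under second moments only

The process, the kernels, the Skorokhod space and convergence in distribution on it are defined
in `Pool.Agent.H40.Voter.Defs`, `Pool.Agent.H40.Voter.SkorDefs` and `Pool.Agent.H40.Voter.Final`.

Idea of the proof. A tent function shows that for large `L` most sites of the window
`[L / ε, 2 L / ε]` carry a one during most of the time interval `[0, T / ε ^ 2]`. As long as no one
has appeared to the left of `- K / ε`, the rate at which this happens is therefore at least of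
order `A (C / ε) / ε`, with `A d` the tail `∑ a (- k)` over `k ≥ d`, and this is much larger than
`ε ^ 2` for suitable `ε` as soon as `d ^ 3 * A d` is unbounded.
-/

open MeasureTheory ProbabilityTheory Filter Topology
open scoped ENNReal NNReal

namespace Pool.Agent.Results.MP_43b10a_pr.NoPathConvergence

open H40.Voter

/-- There are kernels, even symmetric ones, which satisfy all the assumptions and for which
`d ^ 3 * ∑_{k ≥ d} a (- k)` tends to infinity. For every centered kernel for which this quantity is
unbounded, the rescaled interface gets below any level `- K` in any time interval `[0, T]` with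
probability whose upper limit as `ε ↓ 0` is one (with limit one if the quantity tends to
infinity), and the rescaled interface process does not converge in distribution in the Skorokhod
space to any process. -/
theorem result :
    (∃ a : ℤ → ℝ, IsKernel a ∧ (∀ k, a (-k) = a k) ∧ ∑' k : ℤ, a k * (k : ℝ) = 0 ∧
      Tendsto (fun d : ℕ => (d : ℝ) ^ 3 * tail a d) atTop atTop) ∧
    ∀ a : ℤ → ℝ, IsKernel a → ∑' k : ℤ, a k * (k : ℝ) = 0 →
      ¬ BddAbove (Set.range fun d : ℕ => (d : ℝ) ^ 3 * tail a d) →
      ∀ V : VoterFamily a,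
        (∀ (Ω' : Type) [MeasurableSpace Ω'] (P' : Measure Ω') [IsProbabilityMeasure P']
          (Z : Ω' → SkoD), Measurable Z → ¬ ConvInLaw V.P V.Y P' Z) ∧
        (∀ (K : ℕ) (T : ℝ), 0 < T →
          (∀ η : ℝ, 0 < η → ∃ᶠ ε in 𝓝[>] (0 : ℝ), ENNReal.ofReal (1 - η) ≤
            V.P ε {ω | ∃ t : ℝ≥0, (t : ℝ) ≤ T ∧ (V.Y ε ω).1 t ≤ -K}) ∧
          (Tendsto (fun d : ℕ => (d : ℝ) ^ 3 * tail a d) atTop atTop →
            Tendsto (fun ε : ℝ => V.P ε {ω | ∃ t : ℝ≥0, (t : ℝ) ≤ T ∧ (V.Y ε ω).1 t ≤ -K})
              (𝓝[>] 0) (𝓝 1))) := by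
  refine ⟨⟨kex, kex_kernel, kex_neg, ?_, kex_tail⟩, ?_⟩
  · have h := (Equiv.neg ℤ).tsum_eq fun k : ℤ => kex k * (k : ℝ)
    have h2 : ∀ k : ℤ, kex ((Equiv.neg ℤ) k) * (((Equiv.neg ℤ) k : ℤ) : ℝ) =
        -(kex k * (k : ℝ)) := by
      intro k
      rw [Equiv.neg_apply, kex_neg]
      push_cast
      ring
    simp only [h2, tsum_neg] at h
    linarith
  · intro a hk hc hub V
    refine ⟨?_, fun K T hT => ⟨fun η hη => frequently_low hk hc hub V K T hT η hη,
      fun hlim => tendsto_low hk hc hlim V K T hT⟩⟩
    intro Ω' _ P' _ Z hZ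
    refine not_convInLaw V.P V.Y V.meas (T := 1) (fun K => ?_) P' Z hZ
    have h := frequently_low hk hc hub V K 1 one_pos (1 / 2) (by norm_num)
    norm_num at h ⊢
    exact h

end Pool.Agent.Results.MP_43b10a_pr.NoPathConvergence
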