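import Pool.Agent.H40.Voter.Gen

open MeasureTheory ProbabilityTheory Filter Topology
open scoped ENNReal NNReal

namespace H40.Voter

variable {Ω : Type*} [mΩ : MeasurableSpace Ω] {P : Measure Ω} [IsProbabilityMeasure P]
  {F : Filtration ℝ≥0 mΩ} {a : ℤ → ℝ} {ε : ℝ} {X : ℝ≥0 → Ω → Config}

omit [IsProbabilityMeasure P] in
theorem IsBiasedVoter.meas (h : IsBiasedVoter P F a ε X) (t : ℝ≥0) : Measurable (X t) :=
  (h.adapted t).mono (F.le t) le_rfl

/-- Grid times. -/
noncomputable def grid (n m : ℕ) : ℝ≥0 := ((m : ℝ≥0) + 1) / (n + 1)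

/-- The index of the next grid time. -/
noncomputable def gidx (n : ℕ) (r : ℝ≥0) : ℕ := ⌊r * (n + 1)⌋₊

theorem measurable_gidx (n : ℕ) : Measurable (gidx n) :=
  Nat.measurable_floor.comp (measurable_id.mul_const _)

theorem le_grid (n : ℕ) (r : ℝ≥0) : r ≤ grid n (gidx n r) := by
  unfold grid gidx
  rw [le_div_iff₀ (by positivity)]
  exact (Nat.lt_floor_add_one _).le

theorem grid_le (n : ℕ) (r : ℝ≥0) : grid n (gidx n r) ≤ r + 1 / (n + 1) := by
  unfold grid gidx
  rw [div_le_iff₀ (by positivity), add_mul, one_div, inv_mul_cancel₀ (by positivity)]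
  gcongr
  exact Nat.floor_le (by positivity)

theorem tendsto_grid (r : ℝ≥0) : Tendsto (fun n => grid n (gidx n r)) atTop (𝓝 r) := by
  have hlim : Tendsto (fun n : ℕ => r + 1 / ((n : ℝ≥0) + 1)) atTop (𝓝 r) := by
    have := (tendsto_one_div_add_atTop_nhds_zero_nat (𝕜 := ℝ≥0)).const_add r
    simpa using this
  exact tendsto_of_tendsto_of_tendsto_of_le_of_le tendsto_const_nhds hlim
    (fun n => le_grid n r) (fun n => grid_le n r)

omit [IsProbabilityMeasure P] in
/-- Joint measurability in time and randomness. -/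
theorem IsBiasedVoter.meas_uncurry (h : IsBiasedVoter P F a ε X) :
    Measurable fun p : ℝ × Ω => X p.1.toNNReal p.2 := by
  refine measurable_pi_iff.2 fun i => ?_
  have hm : ∀ n : ℕ, Measurable fun p : ℝ × Ω => X (grid n (gidx n p.1.toNNReal)) p.2 i := by
    intro n
    have h1 : Measurable fun q : ℕ × Ω => X (grid n q.1) q.2 i := by
      refine measurable_from_prod_countable_right fun m => ?_
      exact (measurable_pi_apply i).comp (h.meas (grid n m))
    have h2 : Measurable fun p : ℝ × Ω => (gidx n p.1.toNNReal, p.2) :=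
      Measurable.prodMk ((measurable_gidx n).comp (measurable_fst.real_toNNReal)) measurable_snd
    have h3 := h1.comp h2
    simp only [Function.comp_def] at h3
    exact h3
  refine measurable_of_tendsto_metrizable hm ?_
  rw [tendsto_pi_nhds]
  rintro ⟨s, ω⟩
  have hr := h.right_cont ω i s.toNNReal
  refine hr.tendsto.comp ?_
  exact tendsto_nhdsWithin_iff.2 ⟨tendsto_grid _, Eventually.of_forall fun n => le_grid n _⟩

/-- Dynkin formula on an event of the past. -/
theorem IsBiasedVoter.dynkin (h : IsBiasedVoter P F a ε X) (ha : ∀ k, 0 ≤ a k)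
    (hs : Summable a) (h0 : 0 ≤ ε) (h1 : ε ≤ 1) {f : Config → ℝ} {J : Finset ℤ}
    (hf : DependsOn' J f) {B : ℝ} (hB : 0 ≤ B) (hfB : ∀ x y, |f x - f y| ≤ B)
    {s t : ℝ≥0} (hst : s ≤ t) {E : Set Ω} (hE : MeasurableSet[F s] E) :
    ∫ ω in E, f (X t ω) ∂P - ∫ ω in E, f (X s ω) ∂P =
      ∫ u in (s : ℝ)..t, ∫ ω in E, gen a ε f (X u.toNNReal ω) ∂P := by
  have hmart := h.martingale f ⟨J, hf⟩
  have heq := hmart.setIntegral_eq hst hE
  have hgc : Continuous (gen a ε f) := continuous_gen ha hs ε hf hB hfB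
  have hfc : Continuous f := hf.continuous
  set C := 2 * ((J.card : ℝ) * ((∑' k, a k) * B))
  have hgb : ∀ x, ‖gen a ε f x‖ ≤ C := fun x => abs_gen_le ha hs h0 h1 hf hB hfB x
  have hju : Measurable fun p : ℝ × Ω => gen a ε f (X p.1.toNNReal p.2) :=
    hgc.measurable.comp h.meas_uncurry
  have hfi : ∀ r : ℝ≥0, Integrable (fun ω => f (X r ω)) P := by
    intro r
    refine Integrable.of_bound (C := |f (fun _ => false)| + B)
      (hfc.measurable.comp (h.meas r)).aestronglyMeasurable (Eventually.of_forall fun ω => ?_)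
    have := hfB (X r ω) (fun _ => false)
    rw [Real.norm_eq_abs]
    calc |f (X r ω)| = |f (fun _ => false) + (f (X r ω) - f (fun _ => false))| := by ring_nf
      _ ≤ _ := (abs_add_le _ _).trans (by linarith)
  have hii : ∀ (ω : Ω) (u v : ℝ), IntervalIntegrable (fun s => gen a ε f (X s.toNNReal ω))
      volume u v := by
    intro ω u v
    rw [intervalIntegrable_iff]
    refine Measure.integrableOn_of_bounded (M := C) ?_ ?_ ?_
    · rw [Real.volume_uIoc]; exact ENNReal.ofReal_ne_top
    · exact (hju.comp measurable_prodMk_right).aestronglyMeasurable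
    · exact Eventually.of_forall fun s => hgb _
  have hprod : ∀ (u v : ℝ), Integrable (fun p : ℝ × Ω => gen a ε f (X p.1.toNNReal p.2))
      ((volume.restrict (Set.uIoc u v)).prod (P.restrict E)) := by
    intro u v
    have : IsFiniteMeasure (volume.restrict (Set.uIoc u v)) :=
      ⟨by rw [Measure.restrict_apply_univ, Real.volume_uIoc]; exact ENNReal.ofReal_lt_top⟩
    exact Integrable.of_bound hju.aestronglyMeasurable (C := C)
      (Eventually.of_forall fun p => hgb _)
  have hIi : ∀ r : ℝ≥0, Integrable (fun ω => ∫ u in (0 : ℝ)..r, gen a ε f (X u.toNNReal ω)) P := by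
    intro r
    have h2 := hmart.integrable r
    have h3 := (hfi r).sub h2
    refine h3.congr (Eventually.of_forall fun ω => ?_)
    simp
  have e1 : ∀ r : ℝ≥0, ∫ ω in E, (f (X r ω) - ∫ u in (0 : ℝ)..r, gen a ε f (X u.toNNReal ω)) ∂P =
      ∫ ω in E, f (X r ω) ∂P - ∫ ω in E, (∫ u in (0 : ℝ)..r, gen a ε f (X u.toNNReal ω)) ∂P :=
    fun r => integral_sub (hfi r).integrableOn (hIi r).integrableOn
  rw [e1, e1] at heq
  have e2 : ∫ ω in E, f (X t ω) ∂P - ∫ ω in E, f (X s ω) ∂P =
      ∫ ω in E, ((∫ u in (0 : ℝ)..t, gen a ε f (X u.toNNReal ω)) -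
        (∫ u in (0 : ℝ)..s, gen a ε f (X u.toNNReal ω))) ∂P := by
    rw [integral_sub (hIi t).integrableOn (hIi s).integrableOn]
    linarith
  rw [e2]
  have e3 : ∀ ω, (∫ u in (0 : ℝ)..t, gen a ε f (X u.toNNReal ω)) -
      (∫ u in (0 : ℝ)..s, gen a ε f (X u.toNNReal ω)) =
      ∫ u in (s : ℝ)..t, gen a ε f (X u.toNNReal ω) := fun ω =>
    intervalIntegral.integral_interval_sub_left (hii ω 0 t) (hii ω 0 s)
  simp_rw [e3]
  exact (intervalIntegral_integral_swap (hprod s t)).symm

end H40.Voter
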