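import Pool.Agent.H40.Voter.Hit

open MeasureTheory ProbabilityTheory Filter Topology
open scoped ENNReal NNReal

namespace H40.Voter

/-- Tail of the kernel in the negative direction. -/
noncomputable def tail (a : ℤ → ℝ) (d : ℤ) : ℝ := ∑' m : ℕ, a (-(d + m))

theorem summable_tail {a : ℤ → ℝ} (hs : Summable a) (d : ℤ) :
    Summable fun m : ℕ => a (-(d + m)) := by
  refine hs.comp_injective (i := fun m : ℕ => (-(d + (m : ℤ)))) fun m n h => ?_
  simpa using h

variable {Ω : Type*} [mΩ : MeasurableSpace Ω] {P : Measure Ω} [IsProbabilityMeasure P]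
  {F : Filtration ℝ≥0 mΩ} {a : ℤ → ℝ} {ε : ℝ} {X : ℝ≥0 → Ω → Config}

theorem zf_measurable (s : Finset ℤ) (φ : ℤ → ℝ) : Measurable (zf s φ) :=
  (zf_dep s φ).continuous.measurable

/-- Expected number of zeros in a window. -/
theorem zeros_bound (h : IsBiasedVoter P F a ε X) (hk : IsKernel a)
    (hc : ∑' k : ℤ, a k * (k : ℝ) = 0) (h0 : 0 ≤ ε) (h1 : ε ≤ 1) {M : ℤ} (hM : 0 < M) (t : ℝ≥0) :
    ∫ ω, zf (Finset.Icc M (2 * M)) (fun _ => 1) (X t ω) ∂P ≤
      4 * (∑' k : ℤ, a k * (k : ℝ) ^ 2) * t / M := by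
  set C := 4 * ∑' k : ℤ, a k * (k : ℝ) ^ 2 with hC
  have h2M : 0 ≤ 2 * M := by omega
  set s := Finset.Icc 0 (2 * (2 * M))
  have hφ := tent_nonneg h2M
  have hB : 0 ≤ ∑ j ∈ s, tent (2 * M) j := Finset.sum_nonneg fun j _ => hφ j
  have hf := zf_abs_sub_le (s := s) hφ
  have hdy := h.dynkin hk.nonneg hk.summable h0 h1 (zf_dep s (tent (2 * M))) hB hf
    (zero_le (a := t)) (E := Set.univ) MeasurableSet.univ
  simp only [Measure.restrict_univ] at hdy
  have hz : ∫ ω, zf s (tent (2 * M)) (X 0 ω) ∂P = 0 := by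
    have : ∀ᵐ ω ∂P, zf s (tent (2 * M)) (X 0 ω) = 0 := by
      filter_upwards [h.initial] with ω hω
      rw [hω]
      refine Finset.sum_eq_zero fun j hj => ?_
      have : 0 ≤ j := (Finset.mem_Icc.1 hj).1
      simp [heaviside, zr, this]
    rw [integral_congr_ae this, integral_zero]
  rw [hz, sub_zero] at hdy
  have hgc := continuous_gen hk.nonneg hk.summable ε (zf_dep s (tent (2 * M))) hB hf
  have hgb : ∀ x, |gen a ε (zf s (tent (2 * M))) x| ≤ _ := fun x =>
    abs_gen_le hk.nonneg hk.summable h0 h1 (zf_dep s (tent (2 * M))) hB hf x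
  have hle : ∫ ω, zf s (tent (2 * M)) (X t ω) ∂P ≤ C * t := by
    rw [hdy]
    have hii := h.ii hgc.measurable hgb Set.univ 0 t
    simp only [Measure.restrict_univ] at hii
    have := intervalIntegral.integral_mono_on (μ := volume) (a := (0 : ℝ)) (b := t)
      t.coe_nonneg hii
      (intervalIntegrable_const (c := C)) fun u _ => by
        have h3 : ∫ ω, gen a ε (zf s (tent (2 * M))) (X u.toNNReal ω) ∂P ≤ ∫ _ω, C ∂P :=
          integral_mono (h.integrable_comp hgc.measurable hgb _) (integrable_const _)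
            fun ω => gen_zf_le hk hc h0 h2M _
        simpa using h3
    simpa [mul_comm] using this
  have hpt : ∀ x : Config, zf (Finset.Icc M (2 * M)) (fun _ => 1) x ≤
      zf s (tent (2 * M)) x / M := by
    intro x
    have hMr : (0 : ℝ) < M := by exact_mod_cast hM
    rw [le_div_iff₀ hMr]
    unfold zf
    rw [Finset.sum_mul]
    refine (Finset.sum_le_sum (f := fun i => 1 * zr (x i) * (M : ℝ))
      (g := fun i => tent (2 * M) i * zr (x i)) fun i hi => ?_).trans
      (Finset.sum_le_sum_of_subset_of_nonneg ?_ fun i _ _ => mul_nonneg (hφ i) (zr_nonneg _))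
    · have hi' := Finset.mem_Icc.1 hi
      rw [tent_of_le (by omega) (by omega)]
      have : (M : ℝ) ≤ i := by exact_mod_cast hi'.1
      have := zr_nonneg (x i)
      nlinarith
    · exact Finset.Icc_subset_Icc (by omega) (by omega)
  have hib : ∀ (s : Finset ℤ) (φ : ℤ → ℝ), (∀ i, 0 ≤ φ i) → ∀ x, |zf s φ x| ≤ ∑ j ∈ s, φ j := by
    intro s φ hφ x
    have h9 : 0 ≤ zf s φ x := Finset.sum_nonneg fun i _ => mul_nonneg (hφ i) (zr_nonneg _)
    rw [abs_of_nonneg h9]
    exact Finset.sum_le_sum fun i _ => mul_le_of_le_one_right (hφ i) (zr_le_one _)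
  calc ∫ ω, zf (Finset.Icc M (2 * M)) (fun _ => 1) (X t ω) ∂P
      ≤ ∫ ω, zf s (tent (2 * M)) (X t ω) / M ∂P :=
        integral_mono (h.integrable_comp (zf_measurable _ _) (hib _ _ fun _ => zero_le_one) t)
          ((h.integrable_comp (zf_measurable _ _) (hib _ _ hφ) t).div_const _) fun ω => hpt _
    _ = (∫ ω, zf s (tent (2 * M)) (X t ω) ∂P) / M := integral_div _ _
    _ ≤ C * t / M := by
        have hMr : (0 : ℝ) < M := by exact_mod_cast hM
        gcongr

/-- Lower bound for the rate in terms of the number of ones in a window. -/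
theorem rate_lower (hk : IsKernel a) {M K : ℤ} (hM : 0 < M) (n : ℕ) (x : Config) :
    (∑ m ∈ Finset.range n, a (-(2 * M + K + m))) *
        ((M : ℝ) - zf (Finset.Icc M (2 * M)) (fun _ => 1) x) ≤
      rate a (Finset.Icc (-(2 * M + K + n)) (-K)) x := by
  set J := Finset.Icc (-(2 * M + K + n)) (-K)
  set W := Finset.Icc M (2 * M)
  set A := ∑ m ∈ Finset.range n, a (-(2 * M + K + m))
  have hA : 0 ≤ A := Finset.sum_nonneg fun _ _ => hk.nonneg _
  have hW : (M : ℝ) - zf W (fun _ => 1) x ≤ ∑ i ∈ W, (if x i = true then (1 : ℝ) else 0) := by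
    have h1 : ∑ i ∈ W, (if x i = true then (1 : ℝ) else 0) + zf W (fun _ => 1) x = W.card := by
      unfold zf
      rw [← Finset.sum_add_distrib]
      have : ∀ i ∈ W, ((if x i = true then (1 : ℝ) else 0) + 1 * zr (x i)) = 1 := by
        intro i _
        unfold zr
        rcases x i with _ | _ <;> simp
      rw [Finset.sum_congr rfl this]
      simp
    have h2 : (M : ℝ) ≤ W.card := by
      rw [Int.card_Icc]
      have : ((2 * M + 1 - M).toNat : ℤ) = M + 1 := by
        rw [Int.toNat_of_nonneg (by omega)]; ring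
      have h3 : (((2 * M + 1 - M).toNat : ℕ) : ℝ) = (M : ℝ) + 1 := by
        have := congrArg (fun z : ℤ => (z : ℝ)) this
        push_cast at this
        exact this
      rw [h3]; linarith
    linarith
  calc A * ((M : ℝ) - zf W (fun _ => 1) x)
      ≤ A * ∑ i ∈ W, (if x i = true then (1 : ℝ) else 0) := mul_le_mul_of_nonneg_left hW hA
    _ = ∑ i ∈ W, A * (if x i = true then (1 : ℝ) else 0) := Finset.mul_sum _ _ _
    _ ≤ ∑ i ∈ W, ∑ j ∈ J, (if x i = true then a (j - i) else 0) := by
        refine Finset.sum_le_sum fun i hi => ?_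
        split_ifs with hx
        · rw [mul_one]
          have hi' := Finset.mem_Icc.1 hi
          have hinj : Set.InjOn (fun m : ℕ => i - (2 * M + K + (m : ℤ))) (Finset.range n) := by
            intro m _ m' _ hmm
            simpa using hmm
          have e : A = ∑ j ∈ (Finset.range n).image (fun m : ℕ => i - (2 * M + K + (m : ℤ))),
              a (j - i) := by
            rw [Finset.sum_image hinj]
            refine Finset.sum_congr rfl fun m _ => ?_
            congr 1; ring
          rw [e]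
          refine Finset.sum_le_sum_of_subset_of_nonneg ?_ fun _ _ _ => hk.nonneg _
          intro j hj
          obtain ⟨m, hm, rfl⟩ := Finset.mem_image.1 hj
          have := Finset.mem_range.1 hm
          rw [Finset.mem_Icc]
          constructor <;> omega
        · simp
    _ = ∑ j ∈ J, ∑ i ∈ W, (if x i = true then a (j - i) else 0) := Finset.sum_comm
    _ ≤ rate a J x := by
        refine Finset.sum_le_sum fun j _ => ?_
        refine (rate_inner_summable hk.nonneg hk.summable j x).sum_le_tsum W fun i _ => ?_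
        split_ifs
        · exact hk.nonneg _
        · exact le_rfl

/-- The quantitative bound on the probability that no one appears to the left of `-K` up to
time `T`, valid for every bias. -/
theorem quant (h : IsBiasedVoter P F a ε X) (hk : IsKernel a)
    (hc : ∑' k : ℤ, a k * (k : ℝ) = 0) (h0 : 0 ≤ ε) (h1 : ε ≤ 1) {M K : ℤ} (hM : 0 < M)
    {T : ℝ≥0} (hT : 0 < T) (ht : 0 < tail a (2 * M + K)) :
    P {ω | ∀ t ≤ T, ∀ j ≤ -K, X t ω j = false} ≤ ENNReal.ofReal
      (2 / (tail a (2 * M + K) * M * T) + 2 * (∑' k : ℤ, a k * (k : ℝ) ^ 2) * T / (M : ℝ) ^ 2) := by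
  set C₂ := ∑' k : ℤ, a k * (k : ℝ) ^ 2
  set τ := tail a (2 * M + K) with hτ
  have hMr : (0 : ℝ) < M := by exact_mod_cast hM
  have hTr : (0 : ℝ) < T := by exact_mod_cast hT
  -- choose the number of sites
  obtain ⟨n, hn⟩ : ∃ n : ℕ, τ / 2 < ∑ m ∈ Finset.range n, a (-(2 * M + K + m)) := by
    have h2 := (summable_tail hk.summable (2 * M + K)).hasSum.tendsto_sum_nat
    have h3 : τ / 2 < τ := by linarith
    exact (h2.eventually (lt_mem_nhds h3)).exists
  set A := ∑ m ∈ Finset.range n, a (-(2 * M + K + m)) with hA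
  have hA0 : 0 < A := lt_trans (by positivity) hn
  set J := Finset.Icc (-(2 * M + K + n)) (-K)
  obtain ⟨H, hH, hsub, hint⟩ := hit_bound h hk.nonneg hk.summable h0 h1 J T
  have hsub' : {ω | ∀ t ≤ T, ∀ j ≤ -K, X t ω j = false} ⊆ H := fun ω hω =>
    hsub fun t ht j hj => hω t ht j (Finset.mem_Icc.1 hj).2
  refine (measure_mono hsub').trans ?_
  rw [← ENNReal.ofReal_toReal (measure_ne_top P H)]
  refine ENNReal.ofReal_le_ofReal ?_
  change P.real H ≤ _
  set W := Finset.Icc M (2 * M)
  set C := (J.card : ℝ) * ∑' k, a k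
  have hrm : Measurable (rate a J) := (continuous_rate hk.nonneg hk.summable J).measurable
  have hrb : ∀ x, |rate a J x| ≤ C := fun x => by
    rw [abs_of_nonneg (rate_nonneg hk.nonneg J x)]; exact rate_le hk.nonneg hk.summable J x
  have hzm : Measurable (zf W fun _ => 1) := zf_measurable _ _
  have hz0 : ∀ x, 0 ≤ zf W (fun _ => 1) x := fun x =>
    Finset.sum_nonneg fun i _ => mul_nonneg zero_le_one (zr_nonneg _)
  have hzb : ∀ x, |zf W (fun _ => 1) x| ≤ W.card := by
    intro x
    rw [abs_of_nonneg (hz0 x)]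
    refine (Finset.sum_le_sum (g := fun _ => (1 : ℝ)) fun i _ => ?_).trans (by simp)
    rw [one_mul]; exact zr_le_one _
  -- lower bound for the integrated rate
  have hpt : ∀ u ∈ Set.Icc (0 : ℝ) T,
      A * (M * P.real H) - A * (4 * C₂ * T / M * 0 + 4 * C₂ * u / M) ≤
      ∫ ω in H, rate a J (X u.toNNReal ω) ∂P := by
    intro u hu
    have i1 : Integrable (fun ω => rate a J (X u.toNNReal ω)) P := h.integrable_comp hrm hrb _
    have i2 : Integrable (fun ω => zf W (fun _ => 1) (X u.toNNReal ω)) P :=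
      h.integrable_comp hzm hzb _
    have i3 : Integrable (fun ω => A * ((M : ℝ) - zf W (fun _ => 1) (X u.toNNReal ω))) P :=
      ((integrable_const _).sub i2).const_mul _
    have h2 : ∫ ω in H, A * ((M : ℝ) - zf W (fun _ => 1) (X u.toNNReal ω)) ∂P ≤
        ∫ ω in H, rate a J (X u.toNNReal ω) ∂P :=
      integral_mono i3.integrableOn i1.integrableOn fun ω => rate_lower hk hM n _
    have h3 : ∫ ω in H, A * ((M : ℝ) - zf W (fun _ => 1) (X u.toNNReal ω)) ∂P =
        A * (M * P.real H) - A * ∫ ω in H, zf W (fun _ => 1) (X u.toNNReal ω) ∂P := by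
      rw [integral_const_mul, integral_sub (integrable_const _) i2.integrableOn]
      simp only [integral_const, measureReal_restrict_apply_univ, smul_eq_mul]
      ring
    have h4 : ∫ ω in H, zf W (fun _ => 1) (X u.toNNReal ω) ∂P ≤ 4 * C₂ * u / M := by
      have h5 := zeros_bound h hk hc h0 h1 hM u.toNNReal
      rw [Real.coe_toNNReal _ hu.1] at h5
      exact (setIntegral_le_integral i2 (Eventually.of_forall fun ω => hz0 _)).trans h5
    have h6 := mul_le_mul_of_nonneg_left h4 hA0.le
    linarith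
  have hlow : A * (M * P.real H) * T - A * (2 * C₂ * (T : ℝ) ^ 2 / M) ≤ 1 := by
    have hint2 := intervalIntegral.integral_mono_on (μ := volume) (a := (0 : ℝ)) (b := T)
      T.coe_nonneg
      (f := fun u => A * (M * P.real H) - A * (4 * C₂ * T / M * 0 + 4 * C₂ * u / M))
      (by apply Continuous.intervalIntegrable; fun_prop)
      (h.ii hrm hrb H 0 T) hpt
    have e : ∫ u in (0 : ℝ)..T, (A * (M * P.real H) - A * (4 * C₂ * T / M * 0 + 4 * C₂ * u / M)) =
        A * (M * P.real H) * T - A * (2 * C₂ * (T : ℝ) ^ 2 / M) := by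
      have e2 : ∀ u : ℝ, A * (M * P.real H) - A * (4 * C₂ * T / M * 0 + 4 * C₂ * u / M) =
          A * (M * P.real H) - (A * (4 * C₂) / M) * u := fun u => by ring
      simp_rw [e2]
      rw [intervalIntegral.integral_sub (by simp)
        (by apply Continuous.intervalIntegrable; fun_prop),
        intervalIntegral.integral_const, intervalIntegral.integral_const_mul, integral_id,
        smul_eq_mul]
      ring
    rw [e] at hint2
    exact hint2.trans hint
  have hfin : P.real H ≤ 1 / (A * M * T) + 2 * C₂ * T / (M : ℝ) ^ 2 := by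
    have hpos : 0 < A * M * T := by positivity
    have e3 : A * (2 * C₂ * (T : ℝ) ^ 2 / M) = (A * M * T) * (2 * C₂ * T / (M : ℝ) ^ 2) := by
      field_simp
    rw [e3] at hlow
    rw [← sub_le_iff_le_add, le_div_iff₀ hpos]
    linarith
  refine hfin.trans (add_le_add ?_ le_rfl)
  rw [div_le_div_iff₀ (by positivity) (by positivity)]
  have h7 : 0 ≤ (M : ℝ) * T := by positivity
  nlinarith [mul_le_mul_of_nonneg_right hn.le h7]

end H40.Voter
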