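import Pool.Agent.H40.Voter.Skor
import Pool.Agent.H40.Voter.Quant

open MeasureTheory ProbabilityTheory Filter Topology
open scoped ENNReal NNReal

namespace H40.Voter

theorem tail_nonneg {a : ℤ → ℝ} (ha : ∀ k, 0 ≤ a k) (d : ℤ) : 0 ≤ tail a d :=
  tsum_nonneg fun _ => ha _

theorem tail_anti {a : ℤ → ℝ} (ha : ∀ k, 0 ≤ a k) (hs : Summable a) {d e : ℤ} (h : d ≤ e) :
    tail a e ≤ tail a d := by
  obtain ⟨n, hn⟩ := Int.le.dest h
  have h1 : tail a e = ∑' m : ℕ, a (-(d + ((m + n : ℕ) : ℤ))) := by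
    unfold tail
    refine tsum_congr fun m => ?_
    congr 1; push_cast; linarith
  have h2 := (summable_tail hs d).sum_add_tsum_nat_add n
  rw [h1]
  have h3 : 0 ≤ ∑ i ∈ Finset.range n, a (-(d + (i : ℤ))) := Finset.sum_nonneg fun _ _ => ha _
  unfold tail
  linarith

/-- The bound in rescaled variables. -/
theorem scaled {Ω : Type*} [mΩ : MeasurableSpace Ω] {P : Measure Ω} [IsProbabilityMeasure P]
    {F : Filtration ℝ≥0 mΩ} {a : ℤ → ℝ} {ε : ℝ} {X : ℝ≥0 → Ω → Config}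
    (h : IsBiasedVoter P F a ε X) (hk : IsKernel a) (hc : ∑' k : ℤ, a k * (k : ℝ) = 0)
    (h0 : 0 < ε) (h1 : ε < 1) {Y : Ω → SkoD} (hY : IsScaledInterface P ε X Y)
    {T : ℝ} (hT : 0 < T) {L K d : ℕ} (hL : 0 < L)
    (hd1 : (2 * L + K + 3 : ℝ) ≤ ε * d) (hd2 : ε * d ≤ 2 * L + K + 4) (ht : 0 < tail a d) :
    P {ω | ∃ t : ℝ≥0, (t : ℝ) ≤ T ∧ (Y ω).1 t ≤ -K}ᶜ ≤
      ENNReal.ofReal (2 * (2 * L + K + 4) ^ 3 / (L * T * ((d : ℝ) ^ 3 * tail a d)) +
        2 * (∑' k : ℤ, a k * (k : ℝ) ^ 2) * T / (L : ℝ) ^ 2) := by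
  set C₂ := ∑' k : ℤ, a k * (k : ℝ) ^ 2
  have hC₂ : 0 ≤ C₂ := tsum_nonneg fun k => mul_nonneg (hk.nonneg k) (sq_nonneg _)
  have hLr : (0 : ℝ) < L := by exact_mod_cast hL
  set M : ℤ := ⌈(L : ℝ) / ε⌉ with hMdef
  set K' : ℤ := ⌈(K : ℝ) / ε⌉ with hKdef
  have hLe : (0 : ℝ) < L / ε := by positivity
  have hM1 : (L : ℝ) / ε ≤ M := Int.le_ceil _
  have hM2 : (M : ℝ) < L / ε + 1 := Int.ceil_lt_add_one _
  have hK1 : (K : ℝ) / ε ≤ K' := Int.le_ceil _
  have hK2 : (K' : ℝ) < K / ε + 1 := Int.ceil_lt_add_one _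
  have hM : 0 < M := by
    have : (0 : ℝ) < M := lt_of_lt_of_le hLe hM1
    exact_mod_cast this
  have hMr : (0 : ℝ) < M := by exact_mod_cast hM
  set T' : ℝ≥0 := (T / ε ^ 2).toNNReal with hT'
  have hT'r : (T' : ℝ) = T / ε ^ 2 := Real.coe_toNNReal _ (by positivity)
  have hT'pos : 0 < T' := by
    rw [← NNReal.coe_pos, hT'r]; positivity
  have hdle : 2 * M + K' ≤ (d : ℤ) := by
    have h2 : (2 * M + K' : ℝ) ≤ d := by
      have h3 : (2 * M + K' : ℝ) ≤ (2 * L + K + 3) / ε := by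
        have h4 : (2 * L + K + 3) / ε = 2 * (L / ε) + K / ε + 3 / ε := by ring
        have h5 : 3 ≤ 3 / ε := by rw [le_div_iff₀ h0]; linarith
        rw [h4]; linarith
      refine h3.trans ?_
      rw [div_le_iff₀ h0]; linarith
    exact_mod_cast h2
  have htail : tail a d ≤ tail a (2 * M + K') := tail_anti hk.nonneg hk.summable hdle
  have ht' : 0 < tail a (2 * M + K') := lt_of_lt_of_le ht htail
  have hq := quant h hk hc h0.le h1.le hM hT'pos (K := K') ht'
  have hsub : ∀ᵐ ω ∂P, ω ∈ {ω | ∃ t : ℝ≥0, (t : ℝ) ≤ T ∧ (Y ω).1 t ≤ -K}ᶜ →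
      ω ∈ {ω | ∀ t ≤ T', ∀ j ≤ -K', X t ω j = false} := by
    filter_upwards [hY] with ω hω hA s hs j hj
    by_contra hX
    have hX' : X s ω j = true := by simpa using hX
    apply hA
    refine ⟨s * (ε ^ 2).toNNReal, ?_, ?_⟩
    · push_cast
      rw [Real.coe_toNNReal _ (by positivity)]
      have : (s : ℝ) ≤ T' := by exact_mod_cast hs
      rw [hT'r, le_div_iff₀ (by positivity)] at this
      exact this
    · obtain ⟨i, hi1, hi2⟩ := hω (s * (ε ^ 2).toNNReal)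
      rw [mul_div_cancel_right₀ _ (by
        rw [Ne, Real.toNNReal_eq_zero, not_le]; positivity)] at hi1
      rw [hi2]
      have h2 : i ≤ j := hi1.2 hX'
      have h3 : (i : ℝ) ≤ -K' := by exact_mod_cast h2.trans hj
      have h4 : (i : ℝ) ≤ -(K / ε) := by linarith
      calc ε * (i : ℝ) ≤ ε * (-(K / ε)) := mul_le_mul_of_nonneg_left h4 h0.le
        _ = -K := by field_simp
  refine (measure_mono_ae hsub).trans (hq.trans (ENNReal.ofReal_le_ofReal ?_))
  have hd0 : (0 : ℝ) < d := by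
    have : (0 : ℝ) < ε * d := lt_of_lt_of_le (by positivity) hd1
    exact (pos_iff_pos_of_mul_pos this).1 h0
  refine add_le_add ?_ ?_
  · rw [hT'r]
    have e1 : tail a d * (L / ε) * (T / ε ^ 2) ≤ tail a (2 * M + K') * M * (T / ε ^ 2) := by
      gcongr
    have e2 : 2 / (tail a (2 * M + K') * M * (T / ε ^ 2)) ≤
        2 / (tail a d * (L / ε) * (T / ε ^ 2)) :=
      div_le_div_of_nonneg_left (by norm_num) (by positivity) e1
    refine e2.trans ?_
    have e3 : 2 / (tail a d * (L / ε) * (T / ε ^ 2)) =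
        2 * (ε * d) ^ 3 / (L * T * ((d : ℝ) ^ 3 * tail a d)) := by
      field_simp
    rw [e3]
    have e4 : (ε * d) ^ 3 ≤ (2 * L + K + 4 : ℝ) ^ 3 := pow_le_pow_left₀ (by positivity) hd2 3
    gcongr
  · rw [hT'r]
    have e5 : (L : ℝ) ^ 2 / ε ^ 2 ≤ (M : ℝ) ^ 2 := by
      rw [← div_pow]; exact pow_le_pow_left₀ hLe.le hM1 2
    rw [div_le_div_iff₀ (by positivity) (by positivity)]
    have e6 : 2 * C₂ * (T / ε ^ 2) * (L : ℝ) ^ 2 = 2 * C₂ * T * ((L : ℝ) ^ 2 / ε ^ 2) := by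
      field_simp
    rw [e6]
    exact mul_le_mul_of_nonneg_left e5 (by positivity)

/-- From a small probability of the complement to a large probability. -/
theorem large_of_compl {Ω : Type*} [MeasurableSpace Ω] {P : Measure Ω} [IsProbabilityMeasure P]
    {A : Set Ω} {η : ℝ} (hη : 0 ≤ η) (h : P Aᶜ ≤ ENNReal.ofReal η) :
    ENNReal.ofReal (1 - η) ≤ P A := by
  have h1 : (1 : ℝ≥0∞) ≤ P A + P Aᶜ := by
    rw [← measure_univ (μ := P), ← Set.union_compl_self A]
    exact measure_union_le _ _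
  have h2 : (1 : ℝ≥0∞) ≤ P A + ENNReal.ofReal η := h1.trans (add_le_add le_rfl h)
  rw [ENNReal.ofReal_sub _ hη, ENNReal.ofReal_one, tsub_le_iff_right]
  exact h2

/-- The kernel with tails of order `7 / 2`. -/
noncomputable def kex (k : ℤ) : ℝ := |(k : ℝ)| ^ (-(7 / 2 : ℝ))

theorem kex_nonneg (k : ℤ) : 0 ≤ kex k := Real.rpow_nonneg (abs_nonneg _) _

theorem kex_neg (k : ℤ) : kex (-k) = kex k := by
  unfold kex; push_cast; rw [abs_neg]

theorem kex_one : kex 1 = 1 := by simp [kex]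

theorem kex_step (i : ℤ) (n : ℕ) :
    Relation.ReflTransGen (fun u v : ℤ => 0 < kex (v - u)) i (i + n) ∧
    Relation.ReflTransGen (fun u v : ℤ => 0 < kex (v - u)) i (i - n) := by
  induction n with
  | zero => simp [Relation.ReflTransGen.refl]
  | succ n ih =>
    refine ⟨ih.1.tail ?_, ih.2.tail ?_⟩
    · have : i + ((n + 1 : ℕ) : ℤ) - (i + n) = 1 := by push_cast; ring
      rw [this, kex_one]; norm_num
    · have : i - ((n + 1 : ℕ) : ℤ) - (i - n) = -1 := by push_cast; ring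
      rw [this, kex_neg, kex_one]; norm_num

theorem kex_kernel : IsKernel kex where
  nonneg := kex_nonneg
  summable := Real.summable_abs_int_rpow (by norm_num)
  second_moment := by
    have h : Summable fun n : ℤ => |(n : ℝ)| ^ (-(3 / 2 : ℝ)) :=
      Real.summable_abs_int_rpow (by norm_num)
    refine h.congr fun n => ?_
    unfold kex
    rcases eq_or_ne n 0 with rfl | hn
    · simp
    · have hpos : 0 < |(n : ℝ)| := abs_pos.2 (by exact_mod_cast hn)
      rw [← sq_abs, ← Real.rpow_natCast, ← Real.rpow_add hpos]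
      norm_num
  irreducible := by
    intro i j
    rcases le_total i j with h | h
    · obtain ⟨n, hn⟩ := Int.le.dest h
      rw [← hn]; exact (kex_step i n).1
    · obtain ⟨n, hn⟩ := Int.le.dest h
      have : j = i - n := by linarith
      rw [this]; exact (kex_step i n).2
  long_jump := ⟨2, by norm_num, by unfold kex; positivity⟩

theorem kex_tail : Tendsto (fun d : ℕ => (d : ℝ) ^ 3 * tail kex d) atTop atTop := by
  have h : Tendsto (fun d : ℕ => (2 : ℝ) ^ (-(7 / 2 : ℝ)) * (d : ℝ) ^ (1 / 2 : ℝ)) atTop atTop :=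
    (((tendsto_rpow_atTop (by norm_num)).comp tendsto_natCast_atTop_atTop)).const_mul_atTop
      (by positivity)
  refine tendsto_atTop_mono' _ ?_ h
  filter_upwards [eventually_ge_atTop 1] with d hd
  have hdr : (0 : ℝ) < d := by exact_mod_cast hd
  have h1 : (d : ℝ) * (2 * (d : ℝ)) ^ (-(7 / 2 : ℝ)) ≤ tail kex d := by
    have h2 := (summable_tail kex_kernel.summable d).sum_le_tsum (Finset.range d)
      fun _ _ => kex_nonneg _
    refine le_trans ?_ h2
    have h3 : ∀ m ∈ Finset.range d, (2 * (d : ℝ)) ^ (-(7 / 2 : ℝ)) ≤ kex (-(d + (m : ℤ))) := by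
      intro m hm
      rw [kex_neg]
      unfold kex
      push_cast
      have hm' : (m : ℝ) ≤ d := by exact_mod_cast (Finset.mem_range.1 hm).le
      rw [abs_of_pos (by positivity)]
      exact Real.rpow_le_rpow_of_nonpos (by positivity) (by linarith) (by norm_num)
    have h4 := Finset.card_nsmul_le_sum _ _ _ h3
    rw [Finset.card_range, nsmul_eq_mul] at h4
    exact h4
  calc (2 : ℝ) ^ (-(7 / 2 : ℝ)) * (d : ℝ) ^ (1 / 2 : ℝ)
      = (d : ℝ) ^ 3 * ((d : ℝ) * (2 * (d : ℝ)) ^ (-(7 / 2 : ℝ))) := by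
        rw [Real.mul_rpow (by norm_num) hdr.le]
        have e : (d : ℝ) ^ (1 / 2 : ℝ) = (d : ℝ) ^ 3 * ((d : ℝ) * (d : ℝ) ^ (-(7 / 2 : ℝ))) := by
          have e1 : (d : ℝ) ^ 3 * ((d : ℝ) * (d : ℝ) ^ (-(7 / 2 : ℝ))) =
              (d : ℝ) ^ 4 * (d : ℝ) ^ (-(7 / 2 : ℝ)) := by ring
          rw [e1, ← Real.rpow_natCast, ← Real.rpow_add hdr]
          norm_num
        rw [e]; ring
    _ ≤ (d : ℝ) ^ 3 * tail kex d := mul_le_mul_of_nonneg_left h1 (by positivity)

end H40.Voter
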