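import Pool.Agent.H40.Voter.SkorDefs
import Pool.Agent.H40.Voter.Proc

open MeasureTheory ProbabilityTheory Filter Topology
open scoped ENNReal NNReal

namespace H40.Voter

/-- Cutoff in time. -/
noncomputable def hcut (T : ℝ) (t : ℝ≥0) : ℝ := max 0 (min 1 (T + 1 - t))

/-- Cutoff in space. -/
noncomputable def pcut (K y : ℝ) : ℝ := min 1 (max 0 (-y - K))

theorem hcut_nonneg (T : ℝ) (t : ℝ≥0) : 0 ≤ hcut T t := le_max_left _ _

theorem hcut_le_one (T : ℝ) (t : ℝ≥0) : hcut T t ≤ 1 := by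
  unfold hcut; exact max_le zero_le_one (min_le_left _ _)

theorem hcut_eq_one {T : ℝ} {t : ℝ≥0} (h : t ≤ T) : hcut T t = 1 := by
  unfold hcut
  rw [min_eq_left (by linarith)]
  exact max_eq_right zero_le_one

theorem hcut_eq_zero {T : ℝ} {t : ℝ≥0} (h : T + 1 ≤ t) : hcut T t = 0 := by
  unfold hcut
  exact max_eq_left ((min_le_right _ _).trans (by linarith))

theorem hcut_lip (T : ℝ) (s t : ℝ≥0) : |hcut T s - hcut T t| ≤ |(s : ℝ) - t| := by
  unfold hcut
  refine (abs_max_sub_max_le_max _ _ _ _).trans ?_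
  rw [sub_self, abs_zero]
  refine max_le (abs_nonneg _) ?_
  refine (abs_min_sub_min_le_max _ _ _ _).trans ?_
  rw [sub_self, abs_zero]
  refine max_le (abs_nonneg _) ?_
  rw [show T + 1 - (s : ℝ) - (T + 1 - t) = -((s : ℝ) - t) by ring, abs_neg]

theorem hcut_continuous (T : ℝ) : Continuous (hcut T) := by
  unfold hcut; fun_prop

theorem pcut_nonneg (K y : ℝ) : 0 ≤ pcut K y := le_min zero_le_one (le_max_left _ _)

theorem pcut_le_one (K y : ℝ) : pcut K y ≤ 1 := min_le_left _ _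

theorem pcut_eq_one {K y : ℝ} (h : y ≤ -(K + 1)) : pcut K y = 1 := by
  unfold pcut
  exact min_eq_left (le_max_of_le_right (by linarith))

theorem pcut_eq_zero {K y : ℝ} (h : -K ≤ y) : pcut K y = 0 := by
  unfold pcut
  rw [max_eq_left (by linarith)]
  exact min_eq_right zero_le_one

theorem pcut_lip (K x y : ℝ) : |pcut K x - pcut K y| ≤ |x - y| := by
  unfold pcut
  refine (abs_min_sub_min_le_max _ _ _ _).trans ?_
  rw [sub_self, abs_zero]
  refine max_le (abs_nonneg _) ?_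
  refine (abs_max_sub_max_le_max _ _ _ _).trans ?_
  rw [sub_self, abs_zero]
  refine max_le (abs_nonneg _) ?_
  rw [show -x - K - (-y - K) = -(x - y) by ring, abs_neg]

theorem pcut_continuous (K : ℝ) : Continuous (pcut K) := by
  unfold pcut; fun_prop

/-- Integrand of the functional. -/
noncomputable def gfun (T K : ℝ) (x : ℝ≥0 → ℝ) (t : ℝ≥0) : ℝ := hcut T t * pcut K (x t)

theorem gfun_nonneg (T K : ℝ) (x : ℝ≥0 → ℝ) (t : ℝ≥0) : 0 ≤ gfun T K x t :=
  mul_nonneg (hcut_nonneg _ _) (pcut_nonneg _ _)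

theorem gfun_le_one (T K : ℝ) (x : ℝ≥0 → ℝ) (t : ℝ≥0) : gfun T K x t ≤ 1 :=
  mul_le_one₀ (hcut_le_one _ _) (pcut_nonneg _ _) (pcut_le_one _ _)

theorem gfun_bdd (T K : ℝ) (x : ℝ≥0 → ℝ) : BddAbove (Set.range (gfun T K x)) :=
  ⟨1, by rintro _ ⟨t, rfl⟩; exact gfun_le_one _ _ _ _⟩

/-- The functional: a smoothed indicator that the path goes below `-K` before time `T`. -/
noncomputable def Gfun (T K : ℝ) (x : SkoD) : ℝ := ⨆ t : ℝ≥0, gfun T K x.1 t

theorem Gfun_nonneg (T K : ℝ) (x : SkoD) : 0 ≤ Gfun T K x :=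
  (gfun_nonneg T K x.1 0).trans (le_ciSup (gfun_bdd T K x.1) 0)

theorem Gfun_le_one (T K : ℝ) (x : SkoD) : Gfun T K x ≤ 1 := ciSup_le fun _ => gfun_le_one _ _ _ _

theorem Gfun_eq_one {T K : ℝ} {x : SkoD} {t : ℝ≥0} (ht : t ≤ T) (hx : x.1 t ≤ -(K + 1)) :
    Gfun T K x = 1 := by
  refine le_antisymm (Gfun_le_one _ _ _) ?_
  have h := le_ciSup (gfun_bdd T K x.1) t
  have h2 : gfun T K x.1 t = 1 := by
    unfold gfun
    rw [hcut_eq_one ht, pcut_eq_one hx, one_mul]
  rw [h2] at h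
  exact h

theorem Gfun_measurable (T K : ℝ) : Measurable (Gfun T K) := by
  refine measurable_of_Iic fun c => ?_
  have hset : Gfun T K ⁻¹' Set.Iic c =
      ⋂ n : ℕ, ⋂ m : ℕ, {x : SkoD | gfun T K x.1 (grid n m) ≤ c} := by
    ext x
    simp only [Set.mem_preimage, Set.mem_Iic, Set.mem_iInter]
    constructor
    · intro h n m
      exact (le_ciSup (gfun_bdd T K x.1) _).trans h
    · intro h
      refine ciSup_le fun t => ?_
      have hx := (x.2 t).1
      have hg : Tendsto (fun n => grid n (gidx n t)) atTop (𝓝[≥] t) :=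
        tendsto_nhdsWithin_iff.2 ⟨tendsto_grid t, Eventually.of_forall fun n => le_grid n t⟩
      have h1 : Tendsto (fun n => x.1 (grid n (gidx n t))) atTop (𝓝 (x.1 t)) := hx.tendsto.comp hg
      have h2 : Tendsto (fun n => gfun T K x.1 (grid n (gidx n t))) atTop (𝓝 (gfun T K x.1 t)) := by
        unfold gfun
        exact (((hcut_continuous T).tendsto t).comp (tendsto_grid t)).mul
          (((pcut_continuous K).tendsto _).comp h1)
      exact le_of_tendsto' h2 fun n => h n _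
  rw [hset]
  refine MeasurableSet.iInter fun n => MeasurableSet.iInter fun m => ?_
  have h1 : Measurable fun x : SkoD => x.1 (grid n m) :=
    (measurable_pi_apply (grid n m)).comp measurable_subtype_coe
  have h2 : Measurable fun x : SkoD => gfun T K x.1 (grid n m) :=
    measurable_const.mul ((pcut_continuous K).measurable.comp h1)
  exact h2 measurableSet_Iic

theorem ciSup_sub_le {f g : ℝ≥0 → ℝ} (hg : BddAbove (Set.range g)) {δ : ℝ}
    (h : ∀ t, f t ≤ g t + δ) : ⨆ t, f t ≤ (⨆ t, g t) + δ :=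
  ciSup_le fun t => (h t).trans (add_le_add (le_ciSup hg t) le_rfl)

theorem Gfun_continuous (T K : ℝ) : SkoContinuous (Gfun T K) := by
  rintro x y ⟨lam, hlam, hx⟩
  rw [Metric.tendsto_atTop]
  intro δ hδ
  have hN := hx (T + 1).toNNReal
  rw [Metric.tendstoUniformlyOn_iff] at hN
  rw [Metric.tendstoUniformly_iff] at hlam
  obtain ⟨n0, hn0⟩ := eventually_atTop.1 ((hN (δ / 4) (by positivity)).and
    (hlam (δ / 4) (by positivity)))
  refine ⟨n0, fun n hn => ?_⟩
  obtain ⟨h1, h2⟩ := hn0 n hn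
  have key : ∀ s, |gfun T K (x n).1 (lam n s) - gfun T K y.1 s| ≤ δ / 2 := by
    intro s
    have h3 : |hcut T (lam n s) - hcut T s| ≤ δ / 4 := by
      have := h2 s
      rw [dist_comm, NNReal.dist_eq] at this
      exact (hcut_lip T _ _).trans this.le
    have h4 : hcut T s * |pcut K ((x n).1 (lam n s)) - pcut K (y.1 s)| ≤ δ / 4 := by
      rcases le_total (T + 1) s with hs | hs
      · rw [hcut_eq_zero hs, zero_mul]; positivity
      · have h5 := h1 s (by
          rw [Set.mem_Iic, ← NNReal.coe_le_coe, Real.coe_toNNReal _ (s.coe_nonneg.trans hs)]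
          exact hs)
        rw [dist_comm, Real.dist_eq] at h5
        exact (mul_le_of_le_one_left (abs_nonneg _) (hcut_le_one _ _)).trans
          ((pcut_lip _ _ _).trans h5.le)
    have e : gfun T K (x n).1 (lam n s) - gfun T K y.1 s =
        (hcut T (lam n s) - hcut T s) * pcut K ((x n).1 (lam n s)) +
        hcut T s * (pcut K ((x n).1 (lam n s)) - pcut K (y.1 s)) := by
      unfold gfun; ring
    rw [e]
    refine (abs_add_le _ _).trans ?_
    rw [abs_mul, abs_mul, abs_of_nonneg (pcut_nonneg _ _), abs_of_nonneg (hcut_nonneg T s)]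
    have h6 : |hcut T (lam n s) - hcut T s| * pcut K ((x n).1 (lam n s)) ≤ δ / 4 :=
      (mul_le_of_le_one_right (abs_nonneg _) (pcut_le_one _ _)).trans h3
    linarith
  have e1 : Gfun T K (x n) = ⨆ s, gfun T K (x n).1 (lam n s) :=
    ((lam n).toEquiv.iSup_comp (g := gfun T K (x n).1)).symm
  have hb : BddAbove (Set.range fun s => gfun T K (x n).1 (lam n s)) :=
    ⟨1, by rintro _ ⟨t, rfl⟩; exact gfun_le_one _ _ _ _⟩
  rw [Real.dist_eq, e1]
  have a1 := ciSup_sub_le (gfun_bdd T K y.1) (δ := δ / 2)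
    (f := fun s => gfun T K (x n).1 (lam n s)) fun s => by
      have := (abs_le.1 (key s)).2; linarith
  have a2 := ciSup_sub_le hb (δ := δ / 2) (f := gfun T K y.1) fun s => by
      have := (abs_le.1 (key s)).1; linarith
  change |(⨆ s, gfun T K (x n).1 (lam n s)) - ⨆ s, gfun T K y.1 s| < δ
  have : |(⨆ s, gfun T K (x n).1 (lam n s)) - ⨆ s, gfun T K y.1 s| ≤ δ / 2 := by
    rw [abs_le]; constructor <;> linarith
  linarith

/-- Paths with left and right limits are locally bounded below. -/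
theorem cadlag_bdd {x : ℝ≥0 → ℝ} (hx : Cadlag x) (N : ℝ≥0) : ∃ B : ℝ, ∀ t ≤ N, -B ≤ x t := by
  have hc : IsCompact (Set.Icc (0 : ℝ≥0) N) := isCompact_Icc
  have := hc.induction_on (p := fun s => ∃ B : ℝ, ∀ t ∈ s, -B ≤ x t) ⟨0, by simp⟩
    (fun s t hst ⟨B, hB⟩ => ⟨B, fun u hu => hB u (hst hu)⟩)
    (fun s t ⟨B, hB⟩ ⟨B', hB'⟩ => ⟨max B B', fun u hu => by
      rcases hu with hu | hu
      · exact (neg_le_neg (le_max_left _ _)).trans (hB u hu)
      · exact (neg_le_neg (le_max_right _ _)).trans (hB' u hu)⟩)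
    (fun t _ => by
      obtain ⟨h1, l, h2⟩ := hx t
      have e1 : ∀ᶠ s in 𝓝[≥] t, x t - 1 < x s := h1.eventually (lt_mem_nhds (by linarith))
      have e2 : ∀ᶠ s in 𝓝[<] t, l - 1 < x s := h2.eventually (lt_mem_nhds (by linarith))
      have e3 : ∀ᶠ s in 𝓝 t, -(max (-(x t - 1)) (-(l - 1))) ≤ x s := by
        rw [← nhdsLT_sup_nhdsGE, eventually_sup]
        constructor
        · filter_upwards [e2] with s hs
          have := le_max_right (-(x t - 1)) (-(l - 1))
          linarith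
        · filter_upwards [e1] with s hs
          have := le_max_left (-(x t - 1)) (-(l - 1))
          linarith
      exact ⟨{s | -(max (-(x t - 1)) (-(l - 1))) ≤ x s}, mem_nhdsWithin_of_mem_nhds e3,
        ⟨_, fun s hs => hs⟩⟩)
  obtain ⟨B, hB⟩ := this
  exact ⟨B, fun t ht => hB t ⟨zero_le, ht⟩⟩

theorem Gfun_tendsto (T : ℝ) (x : SkoD) : Tendsto (fun K : ℕ => Gfun T K x) atTop (𝓝 0) := by
  obtain ⟨B, hB⟩ := cadlag_bdd x.2 (T + 1).toNNReal
  obtain ⟨n0, hn0⟩ := exists_nat_ge B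
  refine tendsto_const_nhds.congr' ?_
  filter_upwards [eventually_ge_atTop n0] with n hn
  refine le_antisymm (Gfun_nonneg _ _ _) (ciSup_le fun t => ?_)
  rcases le_total (T + 1) t with ht | ht
  · unfold gfun; rw [hcut_eq_zero ht, zero_mul]
  · have h1 : -B ≤ x.1 t := hB t (by
      rw [← NNReal.coe_le_coe, Real.coe_toNNReal _ (t.coe_nonneg.trans ht)]; exact ht)
    have h2 : (n0 : ℝ) ≤ n := by exact_mod_cast hn
    unfold gfun
    rw [pcut_eq_zero (by linarith), mul_zero]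

/-- Criterion for the failure of convergence in law. -/
theorem not_convInLaw {Ω : ℝ → Type*} [∀ ε, MeasurableSpace (Ω ε)] (P : ∀ ε, Measure (Ω ε))
    [∀ ε, IsProbabilityMeasure (P ε)] (Y : ∀ ε, Ω ε → SkoD) (hY : ∀ ε, Measurable (Y ε))
    {T : ℝ} (h : ∀ K : ℕ, ∃ᶠ ε in 𝓝[>] (0 : ℝ),
      ENNReal.ofReal (1 / 2) ≤ P ε {ω | ∃ t : ℝ≥0, (t : ℝ) ≤ T ∧ (Y ε ω).1 t ≤ -K})
    {Ω' : Type*} [MeasurableSpace Ω'] (P' : Measure Ω') [IsProbabilityMeasure P']
    (Z : Ω' → SkoD) (hZ : Measurable Z) : ¬ ConvInLaw P Y P' Z := by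
  intro hconv
  have hlim : Tendsto (fun K : ℕ => ∫ ω, Gfun T K (Z ω) ∂P') atTop (𝓝 0) := by
    have := tendsto_integral_of_dominated_convergence (μ := P') (fun _ => (1 : ℝ))
      (F := fun (K : ℕ) ω => Gfun T K (Z ω)) (f := fun _ => 0)
      (fun K => ((Gfun_measurable T K).comp hZ).aestronglyMeasurable) (integrable_const _)
      (fun K => Eventually.of_forall fun ω => by
        rw [Real.norm_eq_abs, abs_of_nonneg (Gfun_nonneg _ _ _)]; exact Gfun_le_one _ _ _)
      (Eventually.of_forall fun ω => Gfun_tendsto T (Z ω))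
    simpa using this
  obtain ⟨K, hK⟩ := (hlim.eventually (gt_mem_nhds (show (0 : ℝ) < 1 / 4 by norm_num))).exists
  have hc := hconv (Gfun T K) (Gfun_measurable T K)
    ⟨1, fun x => by rw [abs_of_nonneg (Gfun_nonneg _ _ _)]; exact Gfun_le_one _ _ _⟩
    (Gfun_continuous T K)
  have hev := hc.eventually (gt_mem_nhds (lt_trans hK (show (1 / 4 : ℝ) < 1 / 2 by norm_num)))
  obtain ⟨ε, h1, h2⟩ := ((h (K + 1)).and_eventually hev).exists
  set A := {ω | ∃ t : ℝ≥0, (t : ℝ) ≤ T ∧ (Y ε ω).1 t ≤ -((K + 1 : ℕ) : ℝ)} with hA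
  have hGm : Measurable fun ω => Gfun T K (Y ε ω) := (Gfun_measurable T K).comp (hY ε)
  set A' := {ω | 1 ≤ Gfun T K (Y ε ω)}
  have hAA : A ⊆ A' := by
    rintro ω ⟨t, ht, hx⟩
    have : Gfun T K (Y ε ω) = 1 := Gfun_eq_one ht (by push_cast at hx; exact hx)
    exact this.ge
  have hA'm : MeasurableSet A' := measurableSet_le measurable_const hGm
  have h3 : ENNReal.ofReal (1 / 2) ≤ P ε A' := h1.trans (measure_mono hAA)
  have h4 : (1 / 2 : ℝ) ≤ (P ε).real A' := by
    rw [Measure.real, ← ENNReal.ofReal_le_iff_le_toReal (measure_ne_top _ _)]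
    exact h3
  have h5 : (P ε).real A' ≤ ∫ ω, Gfun T K (Y ε ω) ∂(P ε) := by
    rw [← integral_indicator_one hA'm]
    refine integral_mono ((integrable_const (1 : ℝ)).indicator hA'm) ?_ fun ω => ?_
    · refine Integrable.of_bound hGm.aestronglyMeasurable 1 (Eventually.of_forall fun ω => ?_)
      rw [Real.norm_eq_abs, abs_of_nonneg (Gfun_nonneg _ _ _)]; exact Gfun_le_one _ _ _
    · by_cases hω : ω ∈ A'
      · rw [Set.indicator_of_mem hω]; exact hω
      · rw [Set.indicator_of_notMem hω]; exact Gfun_nonneg _ _ _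
  linarith

end H40.Voter
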