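import Pool.Agent.H40.Voter.Defs

open MeasureTheory ProbabilityTheory Filter Topology
open scoped ENNReal NNReal

namespace H40.Voter

/-- Right continuous with left limits. -/
def Cadlag (x : ℝ≥0 → ℝ) : Prop :=
  ∀ t, ContinuousWithinAt x (Set.Ici t) t ∧ ∃ l, Tendsto x (𝓝[<] t) (𝓝 l)

/-- The Skorokhod space of real paths which are right continuous with left limits. -/
def SkoD : Type := {x : ℝ≥0 → ℝ // Cadlag x}

/-- The sigma algebra generated by the coordinates. -/
instance : MeasurableSpace SkoD := inferInstanceAs (MeasurableSpace {x : ℝ≥0 → ℝ // Cadlag x})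

/-- Convergence of sequences in the Skorokhod topology: there are increasing bijective time
changes tending uniformly to the identity such that the time changed paths converge locally
uniformly. -/
def SkoTendsto (x : ℕ → SkoD) (y : SkoD) : Prop :=
  ∃ lam : ℕ → (ℝ≥0 ≃o ℝ≥0), TendstoUniformly (fun n s => lam n s) (fun s => s) atTop ∧
    ∀ N : ℝ≥0, TendstoUniformlyOn (fun n s => (x n).1 (lam n s)) y.1 atTop (Set.Iic N)

/-- Continuity of functionals for the (metrizable) Skorokhod topology. -/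
def SkoContinuous (G : SkoD → ℝ) : Prop :=
  ∀ (x : ℕ → SkoD) (y : SkoD), SkoTendsto x y → Tendsto (fun n => G (x n)) atTop (𝓝 (G y))

/-- Convergence in distribution in the Skorokhod space, as `ε` decreases to zero, of random
paths `Y ε` to the random path `Z`. -/
def ConvInLaw {Ω : ℝ → Type*} [∀ ε, MeasurableSpace (Ω ε)] (P : ∀ ε, Measure (Ω ε))
    (Y : ∀ ε, Ω ε → SkoD) {Ω' : Type*} [MeasurableSpace Ω'] (P' : Measure Ω') (Z : Ω' → SkoD) :
    Prop :=
  ∀ G : SkoD → ℝ, Measurable G → (∃ C, ∀ x, |G x| ≤ C) → SkoContinuous G →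
    Tendsto (fun ε => ∫ ω, G (Y ε ω) ∂(P ε)) (𝓝[>] 0) (𝓝 (∫ ω, G (Z ω) ∂P'))

/-- `Y` is the diffusively rescaled interface process of `X`: almost surely, for every time `t`
the value of `Y` at `t` is `ε` times the position of the leftmost one of `X` at time
`t / ε ^ 2`. -/
def IsScaledInterface {Ω : Type*} [MeasurableSpace Ω] (P : Measure Ω) (ε : ℝ)
    (X : ℝ≥0 → Ω → Config) (Y : Ω → SkoD) : Prop :=
  ∀ᵐ ω ∂P, ∀ t : ℝ≥0, ∃ i : ℤ,
    IsLeast {j : ℤ | X (t / (ε ^ 2).toNNReal) ω j = true} i ∧ (Y ω).1 t = ε * i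

end H40.Voter
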