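import Mathlib

open Filter Topology

namespace H40.Voter

/-- The tail condition `d ^ 2 * ∑_{n ≥ d} n a (-n) → 0` as `d → ∞`. -/
def TailSmall (a : ℤ → ℝ) : Prop :=
  Tendsto (fun d : ℕ => (d : ℝ) ^ 2 * ∑' n : ℕ, if d ≤ n then (n : ℝ) * a (-(n : ℤ)) else 0)
    atTop (𝓝 0)

end H40.Voter
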