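import Pool.Agent.H40.Voter.Defs

open MeasureTheory ProbabilityTheory Filter Topology
open scoped ENNReal NNReal

namespace H40.Voter

/-- Positive part of an integer. -/
noncomputable def hp (i : ℤ) : ℝ := max (i : ℝ) 0

/-- Tent function of height `M` supported on `[0, 2 M]`. -/
noncomputable def tent (M i : ℤ) : ℝ := hp i - 2 * hp (i - M) + hp (i - 2 * M)

/-- Second order remainder of `hp`. -/
noncomputable def er (k i : ℤ) : ℝ := hp (i + k) - hp i - (k : ℝ) * (if 0 ≤ i then 1 else 0)

theorem hp_of_nonneg {i : ℤ} (h : 0 ≤ i) : hp i = i := by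
  unfold hp; exact max_eq_left (by exact_mod_cast h)

theorem hp_of_nonpos {i : ℤ} (h : i ≤ 0) : hp i = 0 := by
  unfold hp; exact max_eq_right (by exact_mod_cast h)

theorem tent_of_nonpos {M i : ℤ} (hM : 0 ≤ M) (h : i ≤ 0) : tent M i = 0 := by
  unfold tent
  rw [hp_of_nonpos h, hp_of_nonpos (by linarith), hp_of_nonpos (by linarith)]; ring

theorem tent_of_le {M i : ℤ} (h0 : 0 ≤ i) (h : i ≤ M) : tent M i = i := by
  unfold tent
  rw [hp_of_nonneg h0, hp_of_nonpos (by linarith), hp_of_nonpos (by linarith)]; ring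

theorem tent_of_le2 {M i : ℤ} (hM : 0 ≤ M) (h0 : M ≤ i) (h : i ≤ 2 * M) :
    tent M i = 2 * M - i := by
  unfold tent
  rw [hp_of_nonneg (by linarith), hp_of_nonneg (by linarith), hp_of_nonpos (by linarith)]
  push_cast; ring

theorem tent_of_ge {M i : ℤ} (hM : 0 ≤ M) (h : 2 * M ≤ i) : tent M i = 0 := by
  unfold tent
  rw [hp_of_nonneg (by linarith), hp_of_nonneg (by linarith), hp_of_nonneg (by linarith)]
  push_cast; ring

theorem tent_nonneg {M : ℤ} (hM : 0 ≤ M) (i : ℤ) : 0 ≤ tent M i := by
  rcases le_total i 0 with h | h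
  · rw [tent_of_nonpos hM h]
  · rcases le_total i M with h1 | h1
    · rw [tent_of_le h h1]; exact_mod_cast h
    · rcases le_total i (2 * M) with h2 | h2
      · rw [tent_of_le2 hM h1 h2]
        have : (i : ℝ) ≤ 2 * M := by exact_mod_cast h2
        linarith
      · rw [tent_of_ge hM h2]

theorem er_nonneg (k i : ℤ) : 0 ≤ er k i := by
  unfold er
  split_ifs with h
  · rw [hp_of_nonneg h]
    have : ((i + k : ℤ) : ℝ) ≤ hp (i + k) := le_max_left _ _
    push_cast at this
    linarith
  · rw [hp_of_nonpos (i := i) (by linarith)]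
    have : 0 ≤ hp (i + k) := le_max_right _ _
    linarith

theorem er_eq_zero {k i : ℤ} (h : i ∉ Finset.Ico (-|k|) |k|) : er k i = 0 := by
  rw [Finset.mem_Ico, not_and_or, not_le, not_lt] at h
  unfold er
  rcases h with h | h
  · have h0 : ¬ 0 ≤ i := by
      have := abs_nonneg k
      omega
    have hk : i + k ≤ 0 := by
      have := le_abs_self k
      omega
    rw [if_neg h0, hp_of_nonpos hk, hp_of_nonpos (by omega)]; ring
  · have h0 : 0 ≤ i := le_trans (abs_nonneg k) h
    have hk : 0 ≤ i + k := by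
      have := neg_abs_le k
      omega
    rw [if_pos h0, hp_of_nonneg hk, hp_of_nonneg h0]; push_cast; ring

theorem er_le (k i : ℤ) : er k i ≤ |k| := by
  unfold er hp
  have hk : ((|k| : ℤ) : ℝ) = |(k : ℝ)| := by push_cast; rfl
  rw [hk]
  push_cast
  split_ifs with h
  · have hi : (0 : ℝ) ≤ i := by exact_mod_cast h
    rw [max_eq_left hi]
    rcases le_total 0 ((i : ℝ) + k) with h1 | h1
    · rw [max_eq_left h1]; have := abs_nonneg (k : ℝ); linarith
    · rw [max_eq_right h1]; have := neg_abs_le (k : ℝ); have := le_abs_self (k : ℝ); linarith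
  · have hi : (i : ℝ) ≤ 0 := by
      have : i ≤ 0 := by omega
      exact_mod_cast this
    rw [max_eq_right hi]
    rcases le_total 0 ((i : ℝ) + k) with h1 | h1
    · rw [max_eq_left h1]; have := le_abs_self (k : ℝ); linarith
    · rw [max_eq_right h1]; have := abs_nonneg (k : ℝ); linarith

theorem summable_er (k : ℤ) : Summable (er k) :=
  summable_of_ne_finset_zero (s := Finset.Ico (-|k|) |k|) fun _ h => er_eq_zero h

theorem tsum_er_le (k : ℤ) : ∑' i, er k i ≤ 2 * (k : ℝ) ^ 2 := by
  rw [tsum_eq_sum (s := Finset.Ico (-|k|) |k|) fun _ h => er_eq_zero h]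
  refine (Finset.sum_le_card_nsmul _ _ _ fun i _ => er_le k i).trans ?_
  rw [Int.card_Ico, nsmul_eq_mul]
  have h1 : (((|k| - -|k|).toNat : ℕ) : ℝ) = 2 * |(k : ℝ)| := by
    have h2 : (((|k| - -|k|).toNat : ℕ) : ℤ) = 2 * |k| := by
      rw [Int.toNat_of_nonneg (by have := abs_nonneg k; linarith)]; ring
    have h3 : (((|k| - -|k|).toNat : ℕ) : ℝ) = (((((|k| - -|k|).toNat : ℕ) : ℤ)) : ℝ) := by
      push_cast; rfl
    rw [h3, h2]; push_cast; rfl
  rw [h1]
  push_cast
  nlinarith [sq_abs (k : ℝ)]

/-- Slope of the tent. -/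
noncomputable def slope (M i : ℤ) : ℝ :=
  (if 0 ≤ i then 1 else 0) - 2 * (if 0 ≤ i - M then 1 else 0) + (if 0 ≤ i - 2 * M then 1 else 0)

theorem tent_shift (M k i : ℤ) :
    tent M (i + k) - tent M i =
      (er k i - 2 * er k (i - M) + er k (i - 2 * M)) + (k : ℝ) * slope M i := by
  unfold tent er slope
  have h1 : i + k - M = i - M + k := by ring
  have h2 : i + k - 2 * M = i - 2 * M + k := by ring
  rw [h1, h2]
  ring

theorem slope_eq_zero {M i : ℤ} (hM : 0 ≤ M) (h : i ∉ Finset.Ico 0 (2 * M)) : slope M i = 0 := by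
  rw [Finset.mem_Ico, not_and_or, not_le, not_lt] at h
  unfold slope
  rcases h with h | h
  · rw [if_neg (by omega), if_neg (by omega), if_neg (by omega)]; ring
  · rw [if_pos (by omega), if_pos (by omega), if_pos (by omega)]; ring

theorem tent_eq_zero {M i : ℤ} (hM : 0 ≤ M) (h : i ∉ Finset.Icc 0 (2 * M)) : tent M i = 0 := by
  rw [Finset.mem_Icc, not_and_or, not_le, not_le] at h
  rcases h with h | h
  · exact tent_of_nonpos hM h.le
  · exact tent_of_ge hM h.le

theorem summable_tent {M : ℤ} (hM : 0 ≤ M) : Summable (tent M) :=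
  summable_of_ne_finset_zero (s := Finset.Icc 0 (2 * M)) fun _ h => tent_eq_zero hM h

/-- The main deterministic estimate: for `0 ≤ z ≤ 1`. -/
theorem tent_bound {M : ℤ} (hM : 0 ≤ M) (z : ℤ → ℝ) (hz0 : ∀ i, 0 ≤ z i) (hz1 : ∀ i, z i ≤ 1)
    (k : ℤ) :
    ∑ j ∈ Finset.Icc 0 (2 * M), tent M j * (z (j - k) - z j) ≤
      (k : ℝ) * (∑' i, slope M i * z i) + 4 * (k : ℝ) ^ 2 := by
  have hmul : ∀ (g : ℤ → ℝ), Summable g → (∀ i, 0 ≤ g i) → Summable fun i => g i * z i := by
    intro g hg hg0
    refine Summable.of_nonneg_of_le (fun i => mul_nonneg (hg0 i) (hz0 i)) (fun i => ?_) hg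
    exact mul_le_of_le_one_right (hg0 i) (hz1 i)
  have hT := summable_tent hM
  have hTk : Summable fun i => tent M (i + k) := by
    have h := (Equiv.addRight k).summable_iff.2 hT
    simpa [Function.comp_def] using h
  have hs1 : Summable fun i => tent M (i + k) * z i :=
    hmul _ hTk fun i => tent_nonneg hM _
  have hs2 : Summable fun i => tent M i * z i := hmul _ hT fun i => tent_nonneg hM _
  have e1 : ∑ j ∈ Finset.Icc 0 (2 * M), tent M j * (z (j - k) - z j) =
      ∑' i, tent M (i + k) * z i - ∑' i, tent M i * z i := by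
    have e2 : ∑' i, tent M (i + k) * z i = ∑' j, tent M j * z (j - k) := by
      have h := (Equiv.addRight k).tsum_eq fun j => tent M j * z (j - k)
      simp only [Equiv.coe_addRight, add_sub_cancel_right] at h
      exact h
    have e3 : ∑' j, tent M j * z (j - k) = ∑ j ∈ Finset.Icc 0 (2 * M), tent M j * z (j - k) :=
      tsum_eq_sum fun i h => by rw [tent_eq_zero hM h, zero_mul]
    have e4 : ∑' j, tent M j * z j = ∑ j ∈ Finset.Icc 0 (2 * M), tent M j * z j :=
      tsum_eq_sum fun i h => by rw [tent_eq_zero hM h, zero_mul]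
    rw [e2, e3, e4, ← Finset.sum_sub_distrib]
    exact Finset.sum_congr rfl fun i _ => by ring
  have hE := summable_er k
  have hE2 : Summable fun i => er k (i - 2 * M) := by
    have h := (Equiv.subRight (2 * M)).summable_iff.2 hE
    simpa [Function.comp_def] using h
  have hS : Summable fun i => slope M i * z i :=
    summable_of_ne_finset_zero (s := Finset.Ico 0 (2 * M)) fun i h => by
      rw [slope_eq_zero hM h, zero_mul]
  have t2 : ∑' i, er k (i - 2 * M) = ∑' i, er k i := by
    have h := (Equiv.subRight (2 * M)).tsum_eq (er k)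
    simpa using h
  rw [e1, ← Summable.tsum_sub hs1 hs2]
  have hle : ∀ i, tent M (i + k) * z i - tent M i * z i ≤
      (er k i + er k (i - 2 * M)) + (k : ℝ) * (slope M i * z i) := by
    intro i
    have h := tent_shift M k i
    have h3 : tent M (i + k) * z i - tent M i * z i =
        er k i * z i - 2 * (er k (i - M) * z i) + er k (i - 2 * M) * z i
          + (k : ℝ) * (slope M i * z i) := by
      rw [← sub_mul, h]; ring
    have b1 : er k i * z i ≤ er k i := mul_le_of_le_one_right (er_nonneg _ _) (hz1 i)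
    have b2 : er k (i - 2 * M) * z i ≤ er k (i - 2 * M) :=
      mul_le_of_le_one_right (er_nonneg _ _) (hz1 i)
    have b3 : 0 ≤ er k (i - M) * z i := mul_nonneg (er_nonneg _ _) (hz0 i)
    linarith
  calc ∑' i, (tent M (i + k) * z i - tent M i * z i)
      ≤ ∑' i, ((er k i + er k (i - 2 * M)) + (k : ℝ) * (slope M i * z i)) :=
        Summable.tsum_le_tsum hle (hs1.sub hs2) ((hE.add hE2).add (hS.mul_left _))
    _ = (∑' i, er k i + ∑' i, er k (i - 2 * M)) + (k : ℝ) * ∑' i, slope M i * z i := by
        rw [Summable.tsum_add (hE.add hE2) (hS.mul_left _), Summable.tsum_add hE hE2,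
          tsum_mul_left]
    _ ≤ _ := by
        rw [t2]
        have := tsum_er_le k
        linarith

end H40.Voter
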